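import Mathlib

set_option autoImplicit false

namespace H91SQ

open Finset

/-- `log D ≤ 0.3 √D` for `D ≥ 400`. -/
lemma log_le_sqrt (x : ℝ) (hx : 400 ≤ x) : Real.log x ≤ 0.3 * Real.sqrt x := by
  set t := Real.sqrt x with ht
  have ht20 : 20 ≤ t := by
    apply Real.le_sqrt_of_sq_le; norm_num; linarith
  have hx2 : x = t ^ 2 := (Real.sq_sqrt (by linarith)).symm
  have h20 : Real.log 20 ≤ 3 := by
    rw [Real.log_le_iff_le_exp (by norm_num)]
    have h1 := Real.exp_one_gt_d9
    have h2 : (2.718 : ℝ) ^ 3 ≤ Real.exp 1 ^ 3 :=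
      pow_le_pow_left₀ (by norm_num) (by linarith) 3
    have h3 : Real.exp 1 ^ 3 = Real.exp 3 := by
      rw [← Real.exp_nat_mul]; norm_num
    rw [h3] at h2
    norm_num at h2 ⊢
    linarith
  have h1 : Real.log t = Real.log 20 + Real.log (t / 20) := by
    rw [← Real.log_mul (by norm_num) (by positivity)]
    congr 1; field_simp
  have h2 : Real.log (t / 20) ≤ t / 20 - 1 := Real.log_le_sub_one_of_pos (by positivity)
  rw [hx2, Real.log_pow]
  push_cast
  linarith

/-- Many primes between `√D` and `D`. -/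
lemma exists_primes2 (D : ℕ) (hD : 400 ≤ D) :
    ∃ P : Finset ℕ, (∀ q ∈ P, q.Prime ∧ q ≠ 2 ∧ q ≤ D) ∧
      (∀ q ∈ P, Real.sqrt D < (q : ℝ)) ∧ (D : ℝ) / (4 * Real.log D) ≤ (P.card : ℝ) := by
  have hDr : (400 : ℝ) ≤ D := by exact_mod_cast hD
  have hs20 : 20 ≤ Real.sqrt D := by
    apply Real.le_sqrt_of_sq_le; norm_num; linarith
  have hs2 : Real.sqrt D ^ 2 = D := Real.sq_sqrt (by linarith)
  have hlD : 0 < Real.log D := Real.log_pos (by linarith)
  have hpi := Chebyshev.pi_ge D
  rw [div_le_iff₀ hlD] at hpi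
  have hlog2 : (0.69 : ℝ) ≤ Real.log 2 := by
    have := Real.log_two_gt_d9
    linarith
  have hl := log_le_sqrt (D : ℝ) hDr
  have hl1 : Real.log ((D : ℝ) + 1) ≤ 0.02 * D := by
    have h1 := log_le_sqrt ((D : ℝ) + 1) (by linarith)
    have h2 : Real.sqrt ((D : ℝ) + 1) ≤ Real.sqrt D + 0.05 := by
      apply Real.sqrt_le_iff.mpr
      constructor
      · positivity
      · nlinarith
    nlinarith
  set P := (Nat.primesLE D).filter (fun q : ℕ => Real.sqrt D < (q : ℝ)) with hP
  refine ⟨P, ?_, ?_, ?_⟩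
  · intro q hq
    rw [hP, Finset.mem_filter, Nat.mem_primesLE] at hq
    refine ⟨hq.1.2, ?_, hq.1.1⟩
    rintro rfl
    have := hq.2
    push_cast at this
    linarith
  · intro q hq
    exact (Finset.mem_filter.mp hq).2
  · have h1 : (Nat.primesLE D).card ≤ P.card + (Finset.range (Nat.floor (Real.sqrt D) + 1)).card := by
      rw [← Finset.card_filter_add_card_filter_not (s := Nat.primesLE D)
        (p := fun q : ℕ => Real.sqrt D < (q : ℝ))]
      apply Nat.add_le_add_left
      apply Finset.card_le_card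
      intro q hq
      rw [Finset.mem_filter] at hq
      rw [Finset.mem_range]
      have : (q : ℝ) ≤ Real.sqrt D := not_lt.mp hq.2
      exact Nat.lt_succ_of_le (Nat.le_floor this)
    rw [Nat.primesLE_card_eq_primeCounting, Finset.card_range] at h1
    have h2 : (Nat.primeCounting D : ℝ) ≤ (P.card : ℝ) + (Real.sqrt D + 1) := by
      have h3 : (Nat.primeCounting D : ℝ) ≤ (P.card : ℝ) + ((Nat.floor (Real.sqrt D) : ℝ) + 1) := by
        exact_mod_cast h1
      have h4 : (Nat.floor (Real.sqrt D) : ℝ) ≤ Real.sqrt D := Nat.floor_le (by positivity)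
      linarith
    have h5 : (Nat.primeCounting D : ℝ) * Real.log D
        ≤ (P.card : ℝ) * Real.log D + (Real.sqrt D + 1) * Real.log D := by
      have := mul_le_mul_of_nonneg_right h2 hlD.le
      linarith
    have h6 : (Real.sqrt D + 1) * Real.log D ≤ 0.315 * D := by
      have h7 : Real.sqrt D + 1 ≤ 1.05 * Real.sqrt D := by linarith
      have h8 : (Real.sqrt D + 1) * Real.log D ≤ (1.05 * Real.sqrt D) * (0.3 * Real.sqrt D) :=
        mul_le_mul h7 hl hlD.le (by positivity)
      nlinarith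
    have h9 : (D : ℝ) * 0.69 ≤ (D : ℝ) * Real.log 2 :=
      mul_le_mul_of_nonneg_left hlog2 (by linarith)
    have h10 : (D : ℝ) / 4 ≤ (P.card : ℝ) * Real.log D := by linarith
    rw [div_le_iff₀ (by positivity)]
    linarith

end H91SQ
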