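import Mathlib

set_option autoImplicit false

namespace H91SQ

open Finset

/-- Real valued quadratic character modulo a prime, evaluated on `ZMod q`. -/
noncomputable def chi (q : ℕ) [Fact q.Prime] (x : ZMod q) : ℝ := (quadraticChar (ZMod q) x : ℝ)

lemma char_ne_two {q : ℕ} [Fact q.Prime] (hq : q ≠ 2) : ringChar (ZMod q) ≠ 2 := by
  rw [ZMod.ringChar_zmod_n]; exact hq

lemma shift_sum_int (q : ℕ) [Fact q.Prime] (hq : q ≠ 2) (δ : ZMod q) (hδ : δ ≠ 0) :
    ∑ u : ZMod q, quadraticChar (ZMod q) u * quadraticChar (ZMod q) (u + δ) = -1 := by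
  have h1 := jacobiSum_nontrivial_inv (quadraticChar_ne_one (char_ne_two hq))
  have hinv : (quadraticChar (ZMod q))⁻¹ = quadraticChar (ZMod q) :=
    (quadraticChar_isQuadratic (ZMod q)).inv
  rw [hinv] at h1
  unfold jacobiSum at h1
  have hδ' : -δ ≠ 0 := neg_ne_zero.mpr hδ
  have h2 : ∑ u : ZMod q, quadraticChar (ZMod q) u * quadraticChar (ZMod q) (u + δ)
      = ∑ x : ZMod q, quadraticChar (ZMod q) (-δ * x) * quadraticChar (ZMod q) (-δ * x + δ) := by
    symm
    exact Fintype.sum_bijective (fun x : ZMod q => -δ * x) (mulLeft_bijective₀ (-δ) hδ') _ _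
      (fun x => rfl)
  rw [h2]
  have h3 : ∀ x : ZMod q, quadraticChar (ZMod q) (-δ * x) * quadraticChar (ZMod q) (-δ * x + δ)
      = quadraticChar (ZMod q) (-1) *
        (quadraticChar (ZMod q) x * quadraticChar (ZMod q) (1 - x)) := by
    intro x
    have e1 : -δ * x + δ = δ * (1 - x) := by ring
    have e2 : -δ * x = (-1) * (δ * x) := by ring
    have hs : quadraticChar (ZMod q) δ * quadraticChar (ZMod q) δ = 1 := by
      have := quadraticChar_sq_one hδ
      rw [pow_two] at this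
      exact this
    rw [e1, e2, map_mul, map_mul, map_mul]
    calc _ = quadraticChar (ZMod q) (-1) * (quadraticChar (ZMod q) x *
          quadraticChar (ZMod q) (1 - x)) * (quadraticChar (ZMod q) δ * quadraticChar (ZMod q) δ) := by
          ring
      _ = _ := by rw [hs, mul_one]
  rw [Finset.sum_congr rfl (fun x _ => h3 x), ← Finset.mul_sum, h1]
  have hm1 : quadraticChar (ZMod q) (-1) * quadraticChar (ZMod q) (-1) = 1 := by
    have := quadraticChar_sq_one (F := ZMod q) (a := (-1 : ZMod q)) (by simp)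
    rw [pow_two] at this
    exact this
  linarith

lemma shift_sum (q : ℕ) [Fact q.Prime] (hq : q ≠ 2) (y y' : ZMod q) :
    ∑ x : ZMod q, chi q (x + y) * chi q (x + y') = (if y = y' then (q : ℝ) else 0) - 1 := by
  have h1 : ∑ x : ZMod q, chi q (x + y) * chi q (x + y')
      = ∑ u : ZMod q, chi q u * chi q (u + (y' - y)) := by
    refine Fintype.sum_bijective (fun x : ZMod q => x + y)
      (Equiv.addRight y).bijective _ _ (fun x => ?_)
    congr 2
    ring
  rw [h1]
  by_cases h : y = y'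
  · subst h
    rw [if_pos rfl]
    have h2 : ∀ u : ZMod q, chi q u * chi q (u + (y - y)) = if u = 0 then 0 else 1 := by
      intro u
      unfold chi
      by_cases hu : u = 0
      · simp [hu]
      · rw [if_neg hu]
        have := quadraticChar_sq_one hu
        rw [pow_two] at this
        have e : u + (y - y) = u := by ring
        rw [e]
        exact_mod_cast this
    rw [Finset.sum_congr rfl (fun u _ => h2 u), Finset.sum_ite, Finset.sum_const_zero, zero_add,
      Finset.sum_const, nsmul_eq_mul, mul_one]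
    have h3 : (Finset.univ.filter (fun u : ZMod q => ¬ u = 0)).card = q - 1 := by
      have e : (Finset.univ.filter (fun u : ZMod q => ¬ u = 0)) = Finset.univ.erase 0 := by
        ext u; simp
      rw [e, Finset.card_erase_of_mem (Finset.mem_univ _), Finset.card_univ, ZMod.card]
    rw [h3]
    have hq1 : 1 ≤ q := (Fact.out : q.Prime).one_lt.le
    push_cast [Nat.cast_sub hq1]
    ring
  · rw [if_neg h]
    have h3 := shift_sum_int q hq (y' - y) (sub_ne_zero.mpr (Ne.symm h))
    unfold chi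
    have h4 : ((∑ u : ZMod q, quadraticChar (ZMod q) u *
        quadraticChar (ZMod q) (u + (y' - y)) : ℤ) : ℝ) = ((-1 : ℤ) : ℝ) := by rw [h3]
    push_cast at h4
    rw [h4]; ring

/-- One prime: the operator `G ↦ ∑ y, χ (x + y) G y` has norm at most `√q`. -/
lemma op_one (q : ℕ) [Fact q.Prime] (hq : q ≠ 2) (G : ZMod q → ℝ) :
    ∑ x : ZMod q, (∑ y : ZMod q, chi q (x + y) * G y) ^ 2 ≤ (q : ℝ) * ∑ y : ZMod q, G y ^ 2 := by
  have h1 : ∑ x : ZMod q, (∑ y : ZMod q, chi q (x + y) * G y) ^ 2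
      = ∑ y : ZMod q, ∑ y' : ZMod q, (G y * G y') *
          ∑ x : ZMod q, chi q (x + y) * chi q (x + y') := by
    have e1 : ∀ x : ZMod q, (∑ y : ZMod q, chi q (x + y) * G y) ^ 2
        = ∑ y : ZMod q, ∑ y' : ZMod q, (G y * G y') * (chi q (x + y) * chi q (x + y')) := by
      intro x
      rw [pow_two, Finset.sum_mul_sum]
      refine Finset.sum_congr rfl (fun y _ => Finset.sum_congr rfl (fun y' _ => ?_))
      ring
    rw [Finset.sum_congr rfl (fun x _ => e1 x), Finset.sum_comm]
    refine Finset.sum_congr rfl (fun y _ => ?_)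
    rw [Finset.sum_comm]
    refine Finset.sum_congr rfl (fun y' _ => ?_)
    rw [Finset.mul_sum]
  rw [h1]
  have h2 : ∀ y : ZMod q, ∑ y' : ZMod q, (G y * G y') *
          ∑ x : ZMod q, chi q (x + y) * chi q (x + y')
      = (q : ℝ) * G y ^ 2 - G y * ∑ y' : ZMod q, G y' := by
    intro y
    have e : ∀ y' : ZMod q, (G y * G y') * ∑ x : ZMod q, chi q (x + y) * chi q (x + y')
        = (if y = y' then (q : ℝ) * (G y * G y') else 0) - G y * G y' := by
      intro y'
      rw [shift_sum q hq]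
      split_ifs <;> ring
    rw [Finset.sum_congr rfl (fun y' _ => e y'), Finset.sum_sub_distrib, Finset.sum_ite_eq,
      if_pos (Finset.mem_univ y), ← Finset.mul_sum]
    ring
  rw [Finset.sum_congr rfl (fun y _ => h2 y), Finset.sum_sub_distrib, ← Finset.mul_sum,
    ← Finset.sum_mul]
  have h3 : 0 ≤ (∑ y : ZMod q, G y) * ∑ y : ZMod q, G y := mul_self_nonneg _
  linarith

/-- Two primes. -/
lemma op_two (q q' : ℕ) [Fact q.Prime] [Fact q'.Prime] (hq : q ≠ 2) (hq' : q' ≠ 2)
    (G : ZMod q → ZMod q' → ℝ) :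
    ∑ x : ZMod q, ∑ x' : ZMod q', (∑ y : ZMod q, ∑ y' : ZMod q',
        chi q (x + y) * chi q' (x' + y') * G y y') ^ 2
      ≤ (q : ℝ) * (q' : ℝ) * ∑ y : ZMod q, ∑ y' : ZMod q', G y y' ^ 2 := by
  have h1 : ∀ (x : ZMod q) (x' : ZMod q'), ∑ y : ZMod q, ∑ y' : ZMod q',
        chi q (x + y) * chi q' (x' + y') * G y y'
      = ∑ y : ZMod q, chi q (x + y) * (∑ y' : ZMod q', chi q' (x' + y') * G y y') := by
    intro x x'
    refine Finset.sum_congr rfl (fun y _ => ?_)
    rw [Finset.mul_sum]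
    refine Finset.sum_congr rfl (fun y' _ => ?_)
    ring
  have h2 : ∑ x : ZMod q, ∑ x' : ZMod q', (∑ y : ZMod q, ∑ y' : ZMod q',
        chi q (x + y) * chi q' (x' + y') * G y y') ^ 2
      = ∑ x' : ZMod q', ∑ x : ZMod q, (∑ y : ZMod q, chi q (x + y) *
          (∑ y' : ZMod q', chi q' (x' + y') * G y y')) ^ 2 := by
    rw [Finset.sum_comm]
    refine Finset.sum_congr rfl (fun x' _ => Finset.sum_congr rfl (fun x _ => ?_))
    rw [h1]
  rw [h2]
  calc ∑ x' : ZMod q', ∑ x : ZMod q, (∑ y : ZMod q, chi q (x + y) *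
          (∑ y' : ZMod q', chi q' (x' + y') * G y y')) ^ 2
      ≤ ∑ x' : ZMod q', (q : ℝ) * ∑ y : ZMod q, (∑ y' : ZMod q', chi q' (x' + y') * G y y') ^ 2 :=
        Finset.sum_le_sum (fun x' _ => op_one q hq _)
    _ = (q : ℝ) * ∑ y : ZMod q, ∑ x' : ZMod q', (∑ y' : ZMod q', chi q' (x' + y') * G y y') ^ 2 := by
        rw [← Finset.mul_sum, Finset.sum_comm]
    _ ≤ (q : ℝ) * ∑ y : ZMod q, (q' : ℝ) * ∑ y' : ZMod q', G y y' ^ 2 := by
        refine mul_le_mul_of_nonneg_left ?_ (Nat.cast_nonneg q)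
        exact Finset.sum_le_sum (fun y _ => op_one q' hq' _)
    _ = _ := by
        rw [← Finset.mul_sum]; ring

end H91SQ
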