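import Pool.Agent.H91.SQ.Sieve

set_option autoImplicit false

namespace H91SQ

open Finset

/-- The number of representations of `s` as a difference of two elements of `A`. -/
def rep (A : Finset ℤ) (s : ℤ) : ℕ := ((A ×ˢ A).filter (fun p : ℤ × ℤ => p.1 - p.2 = s)).card

/-- The difference set of `A`. -/
def dif (A : Finset ℤ) : Finset ℤ := (A ×ˢ A).image (fun p : ℤ × ℤ => p.1 - p.2)

/-- The additive energy of `A`. -/
def en (A : Finset ℤ) : ℕ :=
  ((A ×ˢ A ×ˢ A ×ˢ A).filter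
    (fun x : ℤ × ℤ × ℤ × ℤ => x.1 + x.2.1 = x.2.2.1 + x.2.2.2)).card

lemma sum_rep (A : Finset ℤ) : ∑ s ∈ dif A, rep A s = A.card ^ 2 := by
  have h := Finset.card_eq_sum_card_fiberwise (s := A ×ˢ A) (t := dif A)
    (f := fun p : ℤ × ℤ => p.1 - p.2)
    (fun p hp => Finset.mem_coe.mpr (Finset.mem_image_of_mem _ (Finset.mem_coe.mp hp)))
  rw [Finset.card_product] at h
  unfold rep
  rw [← h, pow_two]

lemma en_eq (A : Finset ℤ) : en A = ∑ s ∈ dif A, rep A s ^ 2 := by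
  unfold en
  rw [Finset.card_eq_sum_card_fiberwise (t := dif A)
    (f := fun x : ℤ × ℤ × ℤ × ℤ => x.1 - x.2.2.1)]
  · refine Finset.sum_congr rfl (fun s _ => ?_)
    unfold rep
    rw [pow_two, ← Finset.card_product]
    refine Finset.card_bij (fun x _ => ((x.1, x.2.2.1), (x.2.2.2, x.2.1))) ?_ ?_ ?_
    · intro x hx
      simp only [Finset.mem_filter, Finset.mem_product] at hx ⊢
      refine ⟨⟨⟨hx.1.1.1, hx.1.1.2.2.1⟩, hx.2⟩, ⟨⟨hx.1.1.2.2.2, hx.1.1.2.1⟩, ?_⟩⟩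
      have h1 := hx.1.2
      have h2 := hx.2
      linarith
    · intro x hx y hy hxy
      simp only [Prod.mk.injEq] at hxy
      ext
      · exact hxy.1.1
      · exact hxy.2.2
      · exact hxy.1.2
      · exact hxy.2.1
    · intro p hp
      simp only [Finset.mem_filter, Finset.mem_product] at hp
      refine ⟨(p.1.1, p.2.2, p.1.2, p.2.1), ?_, rfl⟩
      simp only [Finset.mem_filter, Finset.mem_product]
      refine ⟨⟨⟨hp.1.1.1, hp.2.1.2, hp.1.1.2, hp.2.1.1⟩, ?_⟩, hp.1.2⟩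
      have h1 := hp.1.2
      have h2 := hp.2.2
      linarith
  · intro x hx
    have hx' := (Finset.mem_filter.mp (Finset.mem_coe.mp hx)).1
    simp only [Finset.mem_product] at hx'
    exact Finset.mem_coe.mpr (Finset.mem_image.mpr
      ⟨(x.1, x.2.2.1), Finset.mem_product.mpr ⟨hx'.1, hx'.2.2.1⟩, rfl⟩)

lemma rep_eq (A : Finset ℤ) (s : ℤ) : rep A s = (A.filter (fun b => b + s ∈ A)).card := by
  unfold rep
  refine Finset.card_bij (fun p _ => p.2) ?_ ?_ ?_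
  · intro p hp
    simp only [Finset.mem_filter, Finset.mem_product] at hp ⊢
    refine ⟨hp.1.2, ?_⟩
    have : p.2 + s = p.1 := by linarith [hp.2]
    rw [this]; exact hp.1.1
  · intro p hp p' hp' h
    simp only [Finset.mem_filter, Finset.mem_product] at hp hp'
    ext
    · linarith [hp.2, hp'.2]
    · exact h
  · intro b hb
    simp only [Finset.mem_filter] at hb
    refine ⟨(b + s, b), ?_, rfl⟩
    simp only [Finset.mem_filter, Finset.mem_product]
    exact ⟨⟨hb.2, hb.1⟩, by ring⟩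

lemma rep_le (A : Finset ℤ) (s : ℤ) : rep A s ≤ A.card := by
  rw [rep_eq]; exact Finset.card_filter_le _ _

lemma en_le_cube (A : Finset ℤ) : en A ≤ A.card ^ 3 := by
  rw [en_eq]
  calc ∑ s ∈ dif A, rep A s ^ 2 ≤ ∑ s ∈ dif A, A.card * rep A s := by
        refine Finset.sum_le_sum (fun s _ => ?_)
        rw [pow_two]
        exact Nat.mul_le_mul_right _ (rep_le A s)
    _ = A.card ^ 3 := by rw [← Finset.mul_sum, sum_rep]; ring

lemma rep_le_good (A : Finset ℤ) (s : ℤ) :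
    rep A s ≤ (A.filter (fun b => b + s ∈ A ∧ b + s ≠ 0)).card + 1 := by
  rw [rep_eq]
  have h : A.filter (fun b => b + s ∈ A)
      ⊆ insert (-s) (A.filter (fun b => b + s ∈ A ∧ b + s ≠ 0)) := by
    intro b hb
    simp only [Finset.mem_filter, Finset.mem_insert] at hb ⊢
    by_cases h0 : b + s = 0
    · left; linarith
    · right; exact ⟨hb.1, hb.2, h0⟩
  exact (Finset.card_le_card h).trans (Finset.card_insert_le _ _)

/-- The number of solutions with last entry different from zero. -/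
lemma en_le_good (A : Finset ℤ) :
    (en A : ℝ) ≤ (A.card : ℝ) ^ 2 + ∑ b ∈ A, ∑ s ∈ dif A,
      (if b + s ∈ A ∧ b + s ≠ 0 then (1 : ℝ) * (rep A s : ℝ) else 0) := by
  rw [Finset.sum_comm]
  have h1 : ∀ s ∈ dif A, ∑ b ∈ A, (if b + s ∈ A ∧ b + s ≠ 0 then (1 : ℝ) * (rep A s : ℝ) else 0)
      = ((A.filter (fun b => b + s ∈ A ∧ b + s ≠ 0)).card : ℝ) * (rep A s : ℝ) := by
    intro s _
    rw [← Finset.sum_filter, Finset.sum_const, nsmul_eq_mul, one_mul]
  have h0 : (A.card : ℝ) ^ 2 = ∑ s ∈ dif A, (rep A s : ℝ) := by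
    have := sum_rep A
    exact_mod_cast this.symm
  rw [Finset.sum_congr rfl h1, en_eq, h0]
  push_cast
  rw [← Finset.sum_add_distrib]
  refine Finset.sum_le_sum (fun s _ => ?_)
  have h2 : (rep A s : ℝ) ≤ ((A.filter (fun b => b + s ∈ A ∧ b + s ≠ 0)).card : ℝ) + 1 := by
    exact_mod_cast rep_le_good A s
  have h3 : (0 : ℝ) ≤ (rep A s : ℝ) := Nat.cast_nonneg _
  nlinarith

/-- Number of primes dividing a nonzero integer. -/
lemma card_prime_dvd (P : Finset ℕ) (hP : ∀ q ∈ P, q.Prime) (h : ℤ) (h0 : h ≠ 0) (M : ℕ)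
    (hM : |h| ≤ (M : ℤ)) : (P.filter (fun q : ℕ => (q : ℤ) ∣ h)).card ≤ Nat.log 2 M := by
  have hh : h.natAbs ≠ 0 := by simpa using h0
  have h1 : (∏ q ∈ P.filter (fun q : ℕ => (q : ℤ) ∣ h), q) ∣ h.natAbs := by
    apply Finset.prod_primes_dvd
    · intro q hq
      exact (hP q (Finset.mem_filter.mp hq).1).prime
    · intro q hq
      exact Int.natCast_dvd.mp (Finset.mem_filter.mp hq).2
  have h2 : 2 ^ (P.filter (fun q : ℕ => (q : ℤ) ∣ h)).card
      ≤ ∏ q ∈ P.filter (fun q : ℕ => (q : ℤ) ∣ h), q := by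
    rw [← Finset.prod_const]
    exact Finset.prod_le_prod (fun _ _ => Nat.zero_le _)
      (fun q hq => (hP q (Finset.mem_filter.mp hq).1).two_le)
  have h3 : h.natAbs ≤ M := by
    have : ((h.natAbs : ℕ) : ℤ) ≤ M := by rw [Int.natCast_natAbs]; exact hM
    exact_mod_cast this
  have h4 := Nat.le_of_dvd (Nat.pos_of_ne_zero hh) h1
  exact Nat.le_log_of_pow_le (by norm_num) ((h2.trans h4).trans h3)

/-- Energy bound with explicit parameters. -/
theorem energy_sieve (A : Finset ℤ) (N D : ℕ) (P : Finset ℕ)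
    (hsq : ∀ a ∈ A, IsSquare a) (hN : ∀ a ∈ A, a ≤ (N : ℤ))
    (hP : ∀ q ∈ P, q.Prime ∧ q ≠ 2 ∧ q ≤ D) (hPpos : 0 < P.card)
    (h2W : 2 * Nat.log 2 (2 * N) ≤ P.card)
    (hWn : (Nat.log 2 (2 * N)) ^ 2 * A.card ≤ P.card ^ 2) :
    (en A : ℝ) ≤ (1 + 8 * (D : ℝ)) * (A.card : ℝ) ^ 2 := by
  set W := Nat.log 2 (2 * N) with hW
  set Q : ℝ := (P.card : ℝ) with hQ
  set n : ℝ := (A.card : ℝ) with hn
  have hA0 : ∀ a ∈ A, 0 ≤ a := fun a ha => (hsq a ha).nonneg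
  have hPp : ∀ q ∈ P, q.Prime := fun q hq => (hP q hq).1
  have hdif : ∀ s ∈ dif A, |s| ≤ (N : ℤ) := by
    intro s hs
    obtain ⟨p, hp, rfl⟩ := Finset.mem_image.mp hs
    rw [Finset.mem_product] at hp
    have a1 := hA0 p.1 hp.1
    have a2 := hA0 p.2 hp.2
    have a3 := hN p.1 hp.1
    have a4 := hN p.2 hp.2
    rw [abs_le]
    constructor <;> linarith
  have hs := sieve P D W hP (by omega) A (dif A) (fun _ => 1) (fun s => (rep A s : ℝ))
    (fun _ _ => zero_le_one) (fun _ _ => Nat.cast_nonneg _)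
    (by
      intro b hb b' hb' hne
      refine card_prime_dvd P hPp (b - b') (sub_ne_zero.mpr hne) (2 * N) ?_
      have a1 := hA0 b hb
      have a2 := hA0 b' hb'
      have a3 := hN b hb
      have a4 := hN b' hb'
      rw [abs_le]
      push_cast
      constructor <;> linarith)
    (by
      intro s hs s' hs' hne
      refine card_prime_dvd P hPp (s - s') (sub_ne_zero.mpr hne) (2 * N) ?_
      have a1 := abs_le.mp (hdif s hs)
      have a2 := abs_le.mp (hdif s' hs')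
      rw [abs_le]
      push_cast
      constructor <;> linarith [a1.1, a1.2, a2.1, a2.2])
    (fun b s => b + s ∈ A ∧ b + s ≠ 0)
    (by
      intro b hb s hs hg
      refine ⟨hsq _ hg.1, card_prime_dvd P hPp (b + s) hg.2 (2 * N) ?_⟩
      have a1 := hA0 _ hg.1
      have a3 := hN _ hg.1
      rw [abs_le]
      push_cast
      constructor <;> linarith)
  set T : ℝ := ∑ b ∈ A, ∑ s ∈ dif A,
      (if b + s ∈ A ∧ b + s ≠ 0 then (1 : ℝ) * (rep A s : ℝ) else 0) with hT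
  have hen := en_le_good A
  rw [← hT, ← hn] at hen
  have e1 : ∑ b ∈ A, (1 : ℝ) ^ 2 = n := by simp [hn]
  have e2 : ∑ b ∈ A, (1 : ℝ) = n := by simp [hn]
  have e3 : ∑ s ∈ dif A, (rep A s : ℝ) = n ^ 2 := by
    have := sum_rep A
    rw [hn]; exact_mod_cast this
  have e4 : ∑ s ∈ dif A, (rep A s : ℝ) ^ 2 = (en A : ℝ) := by
    rw [en_eq]; push_cast; rfl
  rw [e1, e2, e3, e4, ← hQ] at hs
  have hcube : (en A : ℝ) ≤ n ^ 3 := by rw [hn]; exact_mod_cast en_le_cube A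
  have hWn' : (W : ℝ) ^ 2 * n ≤ Q ^ 2 := by rw [hQ, hn]; exact_mod_cast hWn
  have h2W' : 2 * (W : ℝ) ≤ Q := by rw [hQ]; exact_mod_cast h2W
  have hQ0 : 0 < Q := by rw [hQ]; exact_mod_cast hPpos
  have hn0 : 0 ≤ n := Nat.cast_nonneg _
  have hW0 : (0 : ℝ) ≤ W := Nat.cast_nonneg _
  have hT0 : 0 ≤ T := by
    rw [hT]
    refine Finset.sum_nonneg (fun b _ => Finset.sum_nonneg (fun s _ => ?_))
    split_ifs
    · simp
    · exact le_refl _
  have b1 : Q ^ 2 * n + (W : ℝ) ^ 2 * n ^ 2 ≤ 2 * Q ^ 2 * n := by nlinarith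
  have b2 : Q ^ 2 * (en A : ℝ) + (W : ℝ) ^ 2 * (n ^ 2) ^ 2 ≤ 2 * Q ^ 2 * n ^ 3 := by
    have c1 : Q ^ 2 * (en A : ℝ) ≤ Q ^ 2 * n ^ 3 := mul_le_mul_of_nonneg_left hcube (sq_nonneg _)
    have c2 : (W : ℝ) ^ 2 * n * n ^ 3 ≤ Q ^ 2 * n ^ 3 :=
      mul_le_mul_of_nonneg_right hWn' (by positivity)
    nlinarith
  have b3 : Real.sqrt (Q ^ 2 * n + (W : ℝ) ^ 2 * n ^ 2) *
      Real.sqrt (Q ^ 2 * (en A : ℝ) + (W : ℝ) ^ 2 * (n ^ 2) ^ 2) ≤ 2 * Q ^ 2 * n ^ 2 := by
    calc _ ≤ Real.sqrt (2 * Q ^ 2 * n) * Real.sqrt (2 * Q ^ 2 * n ^ 3) :=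
          mul_le_mul (Real.sqrt_le_sqrt b1) (Real.sqrt_le_sqrt b2) (Real.sqrt_nonneg _)
            (Real.sqrt_nonneg _)
      _ = 2 * Q ^ 2 * n ^ 2 := by
          rw [← Real.sqrt_mul (by positivity)]
          have : 2 * Q ^ 2 * n * (2 * Q ^ 2 * n ^ 3) = (2 * Q ^ 2 * n ^ 2) ^ 2 := by ring
          rw [this, Real.sqrt_sq (by positivity)]
  have b4 : (Q / 2) ^ 2 ≤ (Q - W) ^ 2 := pow_le_pow_left₀ (by positivity) (by linarith) 2
  have b5 : (Q / 2) ^ 2 * T ≤ (D : ℝ) * (2 * Q ^ 2 * n ^ 2) :=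
    calc (Q / 2) ^ 2 * T ≤ (Q - W) ^ 2 * T := mul_le_mul_of_nonneg_right b4 hT0
      _ ≤ _ := hs
      _ ≤ _ := mul_le_mul_of_nonneg_left b3 (Nat.cast_nonneg _)
  have b6 : T ≤ 8 * (D : ℝ) * n ^ 2 := by
    have hQ2 : 0 < Q ^ 2 := by positivity
    have : Q ^ 2 * T ≤ Q ^ 2 * (8 * (D : ℝ) * n ^ 2) := by nlinarith
    exact le_of_mul_le_mul_left this hQ2
  linarith

end H91SQ
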