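import Pool.Agent.H91.SQ.Energy

set_option autoImplicit false

namespace H91SQ

open Finset

/-- Number of primes larger than `z` dividing a nonzero integer. -/
lemma card_prime_dvd_gt (P : Finset ℕ) (hP : ∀ q ∈ P, q.Prime) (z : ℝ) (hz : 1 < z)
    (hzP : ∀ q ∈ P, z < (q : ℝ)) (h : ℤ) (h0 : h ≠ 0) (M : ℝ) (hM : ((|h| : ℤ) : ℝ) ≤ M) :
    ((P.filter (fun q : ℕ => (q : ℤ) ∣ h)).card : ℝ) ≤ Real.log M / Real.log z := by
  have hh : h.natAbs ≠ 0 := by simpa using h0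
  have h1 : (∏ q ∈ P.filter (fun q : ℕ => (q : ℤ) ∣ h), q) ∣ h.natAbs := by
    apply Finset.prod_primes_dvd
    · intro q hq
      exact (hP q (Finset.mem_filter.mp hq).1).prime
    · intro q hq
      exact Int.natCast_dvd.mp (Finset.mem_filter.mp hq).2
  have h2 : z ^ (P.filter (fun q : ℕ => (q : ℤ) ∣ h)).card
      ≤ ∏ q ∈ P.filter (fun q : ℕ => (q : ℤ) ∣ h), (q : ℝ) := by
    rw [← Finset.prod_const]
    exact Finset.prod_le_prod (fun _ _ => by linarith)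
      (fun q hq => (hzP q (Finset.mem_filter.mp hq).1).le)
  have h4 := Nat.le_of_dvd (Nat.pos_of_ne_zero hh) h1
  have h5 : (∏ q ∈ P.filter (fun q : ℕ => (q : ℤ) ∣ h), (q : ℝ)) ≤ (h.natAbs : ℝ) := by
    rw [← Nat.cast_prod]
    exact Nat.cast_le.mpr h4
  have h6 : (h.natAbs : ℝ) = ((|h| : ℤ) : ℝ) := Nat.cast_natAbs h
  have h7 : z ^ (P.filter (fun q : ℕ => (q : ℤ) ∣ h)).card ≤ M := by
    calc _ ≤ _ := h2
      _ ≤ _ := h5
      _ = _ := h6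
      _ ≤ M := hM
  have h8 : Real.log (z ^ (P.filter (fun q : ℕ => (q : ℤ) ∣ h)).card) ≤ Real.log M :=
    Real.log_le_log (pow_pos (by linarith) _) h7
  rw [Real.log_pow] at h8
  rw [le_div_iff₀ (Real.log_pos hz)]
  exact h8

/-- Energy bound with explicit parameters, general form. -/
theorem energy_sieve2 (A : Finset ℤ) (N D W : ℕ) (P : Finset ℕ)
    (hsq : ∀ a ∈ A, IsSquare a) (hN : ∀ a ∈ A, a ≤ (N : ℤ))
    (hP : ∀ q ∈ P, q.Prime ∧ q ≠ 2 ∧ q ≤ D) (hPpos : 0 < P.card)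
    (hW : ∀ h : ℤ, h ≠ 0 → |h| ≤ 2 * (N : ℤ) → (P.filter (fun q : ℕ => (q : ℤ) ∣ h)).card ≤ W)
    (h2W : 2 * W ≤ P.card)
    (hWn : W ^ 2 * A.card ≤ P.card ^ 2) :
    (en A : ℝ) ≤ (1 + 8 * (D : ℝ)) * (A.card : ℝ) ^ 2 := by
  set Q : ℝ := (P.card : ℝ) with hQ
  set n : ℝ := (A.card : ℝ) with hn
  have hA0 : ∀ a ∈ A, 0 ≤ a := fun a ha => (hsq a ha).nonneg
  have hPp : ∀ q ∈ P, q.Prime := fun q hq => (hP q hq).1
  have hdif : ∀ s ∈ dif A, |s| ≤ (N : ℤ) := by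
    intro s hs
    obtain ⟨p, hp, rfl⟩ := Finset.mem_image.mp hs
    rw [Finset.mem_product] at hp
    have a1 := hA0 p.1 hp.1
    have a2 := hA0 p.2 hp.2
    have a3 := hN p.1 hp.1
    have a4 := hN p.2 hp.2
    rw [abs_le]
    constructor <;> linarith
  have hs := sieve P D W hP (by omega) A (dif A) (fun _ => 1) (fun s => (rep A s : ℝ))
    (fun _ _ => zero_le_one) (fun _ _ => Nat.cast_nonneg _)
    (by
      intro b hb b' hb' hne
      refine hW (b - b') (sub_ne_zero.mpr hne) ?_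
      have a1 := hA0 b hb
      have a2 := hA0 b' hb'
      have a3 := hN b hb
      have a4 := hN b' hb'
      rw [abs_le]
      constructor <;> linarith)
    (by
      intro s hs s' hs' hne
      refine hW (s - s') (sub_ne_zero.mpr hne) ?_
      have a1 := abs_le.mp (hdif s hs)
      have a2 := abs_le.mp (hdif s' hs')
      rw [abs_le]
      constructor <;> linarith [a1.1, a1.2, a2.1, a2.2])
    (fun b s => b + s ∈ A ∧ b + s ≠ 0)
    (by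
      intro b hb s hs hg
      refine ⟨hsq _ hg.1, hW (b + s) hg.2 ?_⟩
      have a1 := hA0 _ hg.1
      have a3 := hN _ hg.1
      rw [abs_le]
      constructor <;> linarith)
  set T : ℝ := ∑ b ∈ A, ∑ s ∈ dif A,
      (if b + s ∈ A ∧ b + s ≠ 0 then (1 : ℝ) * (rep A s : ℝ) else 0) with hT
  have hen := en_le_good A
  rw [← hT, ← hn] at hen
  have e1 : ∑ b ∈ A, (1 : ℝ) ^ 2 = n := by simp [hn]
  have e2 : ∑ b ∈ A, (1 : ℝ) = n := by simp [hn]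
  have e3 : ∑ s ∈ dif A, (rep A s : ℝ) = n ^ 2 := by
    have := sum_rep A
    rw [hn]; exact_mod_cast this
  have e4 : ∑ s ∈ dif A, (rep A s : ℝ) ^ 2 = (en A : ℝ) := by
    rw [en_eq]; push_cast; rfl
  rw [e1, e2, e3, e4, ← hQ] at hs
  have hcube : (en A : ℝ) ≤ n ^ 3 := by rw [hn]; exact_mod_cast en_le_cube A
  have hWn' : (W : ℝ) ^ 2 * n ≤ Q ^ 2 := by rw [hQ, hn]; exact_mod_cast hWn
  have h2W' : 2 * (W : ℝ) ≤ Q := by rw [hQ]; exact_mod_cast h2W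
  have hQ0 : 0 < Q := by rw [hQ]; exact_mod_cast hPpos
  have hn0 : 0 ≤ n := Nat.cast_nonneg _
  have hW0 : (0 : ℝ) ≤ W := Nat.cast_nonneg _
  have hT0 : 0 ≤ T := by
    rw [hT]
    refine Finset.sum_nonneg (fun b _ => Finset.sum_nonneg (fun s _ => ?_))
    split_ifs
    · simp
    · exact le_refl _
  have b1 : Q ^ 2 * n + (W : ℝ) ^ 2 * n ^ 2 ≤ 2 * Q ^ 2 * n := by nlinarith
  have b2 : Q ^ 2 * (en A : ℝ) + (W : ℝ) ^ 2 * (n ^ 2) ^ 2 ≤ 2 * Q ^ 2 * n ^ 3 := by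
    have c1 : Q ^ 2 * (en A : ℝ) ≤ Q ^ 2 * n ^ 3 := mul_le_mul_of_nonneg_left hcube (sq_nonneg _)
    have c2 : (W : ℝ) ^ 2 * n * n ^ 3 ≤ Q ^ 2 * n ^ 3 :=
      mul_le_mul_of_nonneg_right hWn' (by positivity)
    nlinarith
  have b3 : Real.sqrt (Q ^ 2 * n + (W : ℝ) ^ 2 * n ^ 2) *
      Real.sqrt (Q ^ 2 * (en A : ℝ) + (W : ℝ) ^ 2 * (n ^ 2) ^ 2) ≤ 2 * Q ^ 2 * n ^ 2 := by
    calc _ ≤ Real.sqrt (2 * Q ^ 2 * n) * Real.sqrt (2 * Q ^ 2 * n ^ 3) :=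
          mul_le_mul (Real.sqrt_le_sqrt b1) (Real.sqrt_le_sqrt b2) (Real.sqrt_nonneg _)
            (Real.sqrt_nonneg _)
      _ = 2 * Q ^ 2 * n ^ 2 := by
          rw [← Real.sqrt_mul (by positivity)]
          have : 2 * Q ^ 2 * n * (2 * Q ^ 2 * n ^ 3) = (2 * Q ^ 2 * n ^ 2) ^ 2 := by ring
          rw [this, Real.sqrt_sq (by positivity)]
  have b4 : (Q / 2) ^ 2 ≤ (Q - W) ^ 2 := pow_le_pow_left₀ (by positivity) (by linarith) 2
  have b5 : (Q / 2) ^ 2 * T ≤ (D : ℝ) * (2 * Q ^ 2 * n ^ 2) :=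
    calc (Q / 2) ^ 2 * T ≤ (Q - W) ^ 2 * T := mul_le_mul_of_nonneg_right b4 hT0
      _ ≤ _ := hs
      _ ≤ _ := mul_le_mul_of_nonneg_left b3 (Nat.cast_nonneg _)
  have b6 : T ≤ 8 * (D : ℝ) * n ^ 2 := by
    have hQ2 : 0 < Q ^ 2 := by positivity
    have : Q ^ 2 * T ≤ Q ^ 2 * (8 * (D : ℝ) * n ^ 2) := by nlinarith
    exact le_of_mul_le_mul_left this hQ2
  linarith

end H91SQ
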