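import Pool.Agent.H91.SQ.FieldSieve

set_option autoImplicit false

namespace H91SQ

open Finset

section EnergyF

variable {G : Type*} [AddCommGroup G] [DecidableEq G]

/-- The number of representations of `s` as a difference of two elements of `A`. -/
def repG (A : Finset G) (s : G) : ℕ := ((A ×ˢ A).filter (fun p : G × G => p.1 - p.2 = s)).card

/-- The difference set of `A`. -/
def difG (A : Finset G) : Finset G := (A ×ˢ A).image (fun p : G × G => p.1 - p.2)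

/-- The additive energy of `A`. -/
def enG (A : Finset G) : ℕ :=
  ((A ×ˢ A ×ˢ A ×ˢ A).filter
    (fun x : G × G × G × G => x.1 + x.2.1 = x.2.2.1 + x.2.2.2)).card

lemma sum_repG (A : Finset G) : ∑ s ∈ difG A, repG A s = A.card ^ 2 := by
  have h := Finset.card_eq_sum_card_fiberwise (s := A ×ˢ A) (t := difG A)
    (f := fun p : G × G => p.1 - p.2)
    (fun p hp => Finset.mem_coe.mpr (Finset.mem_image_of_mem _ (Finset.mem_coe.mp hp)))
  rw [Finset.card_product] at h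
  unfold repG
  rw [← h, pow_two]

lemma swapG (a b c e : G) : a + b = c + e ↔ a - c = e - b := by
  constructor
  · intro h
    rw [sub_eq_sub_iff_add_eq_add, h, add_comm]
  · intro h
    rw [sub_eq_sub_iff_add_eq_add] at h
    rw [h, add_comm]

lemma enG_eq (A : Finset G) : enG A = ∑ s ∈ difG A, repG A s ^ 2 := by
  unfold enG
  rw [Finset.card_eq_sum_card_fiberwise (t := difG A)
    (f := fun x : G × G × G × G => x.1 - x.2.2.1)]
  · refine Finset.sum_congr rfl (fun s _ => ?_)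
    unfold repG
    rw [pow_two, ← Finset.card_product]
    refine Finset.card_bij (fun x _ => ((x.1, x.2.2.1), (x.2.2.2, x.2.1))) ?_ ?_ ?_
    · intro x hx
      simp only [Finset.mem_filter, Finset.mem_product] at hx ⊢
      refine ⟨⟨⟨hx.1.1.1, hx.1.1.2.2.1⟩, hx.2⟩, ⟨⟨hx.1.1.2.2.2, hx.1.1.2.1⟩, ?_⟩⟩
      rw [← (swapG _ _ _ _).mp hx.1.2]; exact hx.2
    · intro x hx y hy hxy
      simp only [Prod.mk.injEq] at hxy
      ext
      · exact hxy.1.1
      · exact hxy.2.2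
      · exact hxy.1.2
      · exact hxy.2.1
    · intro p hp
      simp only [Finset.mem_filter, Finset.mem_product] at hp
      refine ⟨(p.1.1, p.2.2, p.1.2, p.2.1), ?_, rfl⟩
      simp only [Finset.mem_filter, Finset.mem_product]
      refine ⟨⟨⟨hp.1.1.1, hp.2.1.2, hp.1.1.2, hp.2.1.1⟩, ?_⟩, hp.1.2⟩
      rw [swapG, hp.1.2, hp.2.2]
  · intro x hx
    have hx' := (Finset.mem_filter.mp (Finset.mem_coe.mp hx)).1
    simp only [Finset.mem_product] at hx'
    exact Finset.mem_coe.mpr (Finset.mem_image.mpr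
      ⟨(x.1, x.2.2.1), Finset.mem_product.mpr ⟨hx'.1, hx'.2.2.1⟩, rfl⟩)

lemma repG_eq (A : Finset G) (s : G) : repG A s = (A.filter (fun b => b + s ∈ A)).card := by
  unfold repG
  refine Finset.card_bij (fun p _ => p.2) ?_ ?_ ?_
  · intro p hp
    simp only [Finset.mem_filter, Finset.mem_product] at hp ⊢
    refine ⟨hp.1.2, ?_⟩
    have : p.2 + s = p.1 := by rw [← hp.2]; abel
    rw [this]; exact hp.1.1
  · intro p hp p' hp' h
    simp only [Finset.mem_filter, Finset.mem_product] at hp hp'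
    have h1 : p.1 = p.2 + s := by rw [← hp.2]; abel
    have h2 : p'.1 = p'.2 + s := by rw [← hp'.2]; abel
    have h3 : p.2 = p'.2 := h
    ext
    · rw [h1, h2, h3]
    · exact h
  · intro b hb
    simp only [Finset.mem_filter] at hb
    refine ⟨(b + s, b), ?_, rfl⟩
    simp only [Finset.mem_filter, Finset.mem_product]
    exact ⟨⟨hb.2, hb.1⟩, by abel⟩

lemma repG_le (A : Finset G) (s : G) : repG A s ≤ A.card := by
  rw [repG_eq]; exact Finset.card_filter_le _ _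

lemma enG_le_cube (A : Finset G) : enG A ≤ A.card ^ 3 := by
  rw [enG_eq]
  calc ∑ s ∈ difG A, repG A s ^ 2 ≤ ∑ s ∈ difG A, A.card * repG A s := by
        refine Finset.sum_le_sum (fun s _ => ?_)
        rw [pow_two]
        exact Nat.mul_le_mul_right _ (repG_le A s)
    _ = A.card ^ 3 := by rw [← Finset.mul_sum, sum_repG]; ring

lemma repG_le_good (A : Finset G) (s : G) :
    repG A s ≤ (A.filter (fun b => b + s ∈ A ∧ b + s ≠ 0)).card + 1 := by
  rw [repG_eq]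
  have h : A.filter (fun b => b + s ∈ A)
      ⊆ insert (-s) (A.filter (fun b => b + s ∈ A ∧ b + s ≠ 0)) := by
    intro b hb
    simp only [Finset.mem_filter, Finset.mem_insert] at hb ⊢
    by_cases h0 : b + s = 0
    · left; exact eq_neg_of_add_eq_zero_left h0
    · right; exact ⟨hb.1, hb.2, h0⟩
  exact (Finset.card_le_card h).trans (Finset.card_insert_le _ _)

/-- The number of solutions with last entry different from zero. -/
lemma enG_le_good (A : Finset G) :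
    (enG A : ℝ) ≤ (A.card : ℝ) ^ 2 + ∑ b ∈ A, ∑ s ∈ difG A,
      (if b + s ∈ A ∧ b + s ≠ 0 then (1 : ℝ) * (repG A s : ℝ) else 0) := by
  rw [Finset.sum_comm]
  have h1 : ∀ s ∈ difG A,
      ∑ b ∈ A, (if b + s ∈ A ∧ b + s ≠ 0 then (1 : ℝ) * (repG A s : ℝ) else 0)
      = ((A.filter (fun b => b + s ∈ A ∧ b + s ≠ 0)).card : ℝ) * (repG A s : ℝ) := by
    intro s _
    rw [← Finset.sum_filter, Finset.sum_const, nsmul_eq_mul, one_mul]
  have h0 : (A.card : ℝ) ^ 2 = ∑ s ∈ difG A, (repG A s : ℝ) := by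
    have := sum_repG A
    exact_mod_cast this.symm
  rw [Finset.sum_congr rfl h1, enG_eq, h0]
  push_cast
  rw [← Finset.sum_add_distrib]
  refine Finset.sum_le_sum (fun s _ => ?_)
  have h2 : (repG A s : ℝ) ≤ ((A.filter (fun b => b + s ∈ A ∧ b + s ≠ 0)).card : ℝ) + 1 := by
    exact_mod_cast repG_le_good A s
  have h3 : (0 : ℝ) ≤ (repG A s : ℝ) := Nat.cast_nonneg _
  nlinarith

/-- Cauchy: the sumset is large when the energy is small. -/
lemma sumset_energyG (A : Finset G) :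
    A.card ^ 4 ≤ ((A ×ˢ A).image (fun p : G × G => p.1 + p.2)).card * enG A := by
  set S := (A ×ˢ A).image (fun p : G × G => p.1 + p.2) with hS
  have hmaps : ∀ p ∈ ((A ×ˢ A : Finset (G × G)) : Set (G × G)), p.1 + p.2 ∈ (S : Set G) :=
    fun p hp => Finset.mem_coe.mpr (Finset.mem_image_of_mem
      (fun p : G × G => p.1 + p.2) (Finset.mem_coe.mp hp))
  have h1 := Finset.card_eq_sum_card_fiberwise (s := A ×ˢ A) (t := S)
    (f := fun p : G × G => p.1 + p.2) hmaps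
  rw [Finset.card_product] at h1
  have h2 : enG A = ∑ s ∈ S, ((A ×ˢ A).filter (fun p : G × G => p.1 + p.2 = s)).card ^ 2 := by
    unfold enG
    rw [Finset.card_eq_sum_card_fiberwise (t := S)
      (f := fun x : G × G × G × G => x.1 + x.2.1)]
    · refine Finset.sum_congr rfl (fun s _ => ?_)
      rw [pow_two, ← Finset.card_product]
      refine Finset.card_bij (fun x _ => ((x.1, x.2.1), (x.2.2.1, x.2.2.2))) ?_ ?_ ?_
      · intro x hx
        simp only [Finset.mem_filter, Finset.mem_product] at hx ⊢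
        exact ⟨⟨⟨hx.1.1.1, hx.1.1.2.1⟩, hx.2⟩,
          ⟨⟨hx.1.1.2.2.1, hx.1.1.2.2.2⟩, hx.1.2.symm.trans hx.2⟩⟩
      · intro x _ y _ hxy
        simp only [Prod.mk.injEq] at hxy
        ext
        · exact hxy.1.1
        · exact hxy.1.2
        · exact hxy.2.1
        · exact hxy.2.2
      · intro p hp
        simp only [Finset.mem_filter, Finset.mem_product] at hp
        refine ⟨(p.1.1, p.1.2, p.2.1, p.2.2), ?_, rfl⟩
        simp only [Finset.mem_filter, Finset.mem_product]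
        exact ⟨⟨⟨hp.1.1.1, hp.1.1.2, hp.2.1.1, hp.2.1.2⟩, hp.1.2.trans hp.2.2.symm⟩, hp.1.2⟩
    · intro x hx
      have hx' := (Finset.mem_filter.mp (Finset.mem_coe.mp hx)).1
      simp only [Finset.mem_product] at hx'
      exact Finset.mem_coe.mpr (Finset.mem_image.mpr
        ⟨(x.1, x.2.1), Finset.mem_product.mpr ⟨hx'.1, hx'.2.1⟩, rfl⟩)
  rw [h2]
  calc A.card ^ 4 = (A.card * A.card) ^ 2 := by ring
    _ = (∑ s ∈ S, ((A ×ˢ A).filter (fun p : G × G => p.1 + p.2 = s)).card) ^ 2 := by rw [h1]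
    _ ≤ _ := sq_sum_le_card_mul_sum_sq

/-- Energy bound from maps to a finite field: if every element of `A` is mapped to squares by all
`φ i`, and nonzero elements of `2A - 2A` are killed by at most `W` of them. -/
theorem energy_sieveF {F : Type*} [Field F] [Fintype F] [DecidableEq F]
    {ι : Type*} [DecidableEq ι] (hF : ringChar F ≠ 2)
    (A : Finset G) (P : Finset ι) (φ : ι → G → F)
    (hφ : ∀ i x y, φ i (x + y) = φ i x + φ i y) (W : ℕ) (hPpos : 0 < P.card)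
    (hsq : ∀ a ∈ A, ∀ i ∈ P, IsSquare (φ i a))
    (h0 : ∀ a ∈ A, a ≠ 0 → (P.filter (fun i => φ i a = 0)).card ≤ W)
    (h1 : ∀ a ∈ A, ∀ b ∈ A, a ≠ b → (P.filter (fun i => φ i a = φ i b)).card ≤ W)
    (h2 : ∀ s ∈ difG A, ∀ s' ∈ difG A, s ≠ s' → (P.filter (fun i => φ i s = φ i s')).card ≤ W)
    (h2W : 2 * W ≤ P.card) (hWn : W ^ 2 * A.card ≤ P.card ^ 2) (hPF : P.card = Fintype.card F) :
    (enG A : ℝ) ≤ (1 + 8 * (P.card : ℝ)) * (A.card : ℝ) ^ 2 := by
  set Q : ℝ := (P.card : ℝ) with hQ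
  set n : ℝ := (A.card : ℝ) with hn
  have hs := sieveF hF P φ hφ W (by omega) A (difG A) (fun _ => 1) (fun s => (repG A s : ℝ))
    (fun _ _ => zero_le_one) (fun _ _ => Nat.cast_nonneg _) h1 h2
    (fun b s => b + s ∈ A ∧ b + s ≠ 0)
    (fun b _ s _ hg => ⟨hsq _ hg.1, h0 _ hg.1 hg.2⟩)
  rw [← hPF] at hs
  set T : ℝ := ∑ b ∈ A, ∑ s ∈ difG A,
      (if b + s ∈ A ∧ b + s ≠ 0 then (1 : ℝ) * (repG A s : ℝ) else 0) with hT
  have hen := enG_le_good A
  rw [← hT, ← hn] at hen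
  have e1 : ∑ b ∈ A, (1 : ℝ) ^ 2 = n := by simp [hn]
  have e2 : ∑ b ∈ A, (1 : ℝ) = n := by simp [hn]
  have e3 : ∑ s ∈ difG A, (repG A s : ℝ) = n ^ 2 := by
    have := sum_repG A
    rw [hn]; exact_mod_cast this
  have e4 : ∑ s ∈ difG A, (repG A s : ℝ) ^ 2 = (enG A : ℝ) := by
    rw [enG_eq]; push_cast; rfl
  rw [e1, e2, e3, e4, ← hQ] at hs
  have hcube : (enG A : ℝ) ≤ n ^ 3 := by rw [hn]; exact_mod_cast enG_le_cube A
  have hWn' : (W : ℝ) ^ 2 * n ≤ Q ^ 2 := by rw [hQ, hn]; exact_mod_cast hWn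
  have h2W' : 2 * (W : ℝ) ≤ Q := by rw [hQ]; exact_mod_cast h2W
  have hQ0 : 0 < Q := by rw [hQ]; exact_mod_cast hPpos
  have hn0 : 0 ≤ n := Nat.cast_nonneg _
  have hW0 : (0 : ℝ) ≤ W := Nat.cast_nonneg _
  have hT0 : 0 ≤ T := by
    rw [hT]
    refine Finset.sum_nonneg (fun b _ => Finset.sum_nonneg (fun s _ => ?_))
    split_ifs
    · simp
    · exact le_refl _
  have b1 : Q ^ 2 * n + (W : ℝ) ^ 2 * n ^ 2 ≤ 2 * Q ^ 2 * n := by nlinarith
  have b2 : Q ^ 2 * (enG A : ℝ) + (W : ℝ) ^ 2 * (n ^ 2) ^ 2 ≤ 2 * Q ^ 2 * n ^ 3 := by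
    have c1 : Q ^ 2 * (enG A : ℝ) ≤ Q ^ 2 * n ^ 3 :=
      mul_le_mul_of_nonneg_left hcube (sq_nonneg _)
    have c2 : (W : ℝ) ^ 2 * n * n ^ 3 ≤ Q ^ 2 * n ^ 3 :=
      mul_le_mul_of_nonneg_right hWn' (by positivity)
    nlinarith
  have b3 : Real.sqrt (Q ^ 2 * n + (W : ℝ) ^ 2 * n ^ 2) *
      Real.sqrt (Q ^ 2 * (enG A : ℝ) + (W : ℝ) ^ 2 * (n ^ 2) ^ 2) ≤ 2 * Q ^ 2 * n ^ 2 := by
    calc _ ≤ Real.sqrt (2 * Q ^ 2 * n) * Real.sqrt (2 * Q ^ 2 * n ^ 3) :=
          mul_le_mul (Real.sqrt_le_sqrt b1) (Real.sqrt_le_sqrt b2) (Real.sqrt_nonneg _)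
            (Real.sqrt_nonneg _)
      _ = 2 * Q ^ 2 * n ^ 2 := by
          rw [← Real.sqrt_mul (by positivity)]
          have : 2 * Q ^ 2 * n * (2 * Q ^ 2 * n ^ 3) = (2 * Q ^ 2 * n ^ 2) ^ 2 := by ring
          rw [this, Real.sqrt_sq (by positivity)]
  have b4 : (Q / 2) ^ 2 ≤ (Q - W) ^ 2 := pow_le_pow_left₀ (by positivity) (by linarith) 2
  have b5 : (Q / 2) ^ 2 * T ≤ Q * (2 * Q ^ 2 * n ^ 2) :=
    calc (Q / 2) ^ 2 * T ≤ (Q - W) ^ 2 * T := mul_le_mul_of_nonneg_right b4 hT0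
      _ ≤ _ := hs
      _ ≤ _ := mul_le_mul_of_nonneg_left b3 hQ0.le
  have b6 : T ≤ 8 * Q * n ^ 2 := by
    have hQ2 : 0 < Q ^ 2 := by positivity
    have : Q ^ 2 * T ≤ Q ^ 2 * (8 * Q * n ^ 2) := by nlinarith
    exact le_of_mul_le_mul_left this hQ2
  linarith

end EnergyF

end H91SQ
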