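import Mathlib

set_option autoImplicit false

namespace H91SQ

open Finset

section FieldSieve

variable {F : Type*} [Field F] [Fintype F] [DecidableEq F]

/-- Real valued quadratic character of a finite field. -/
noncomputable def chiF (x : F) : ℝ := (quadraticChar F x : ℝ)

lemma shift_sum_intF (hF : ringChar F ≠ 2) (δ : F) (hδ : δ ≠ 0) :
    ∑ u : F, quadraticChar F u * quadraticChar F (u + δ) = -1 := by
  have h1 := jacobiSum_nontrivial_inv (quadraticChar_ne_one hF)
  have hinv : (quadraticChar F)⁻¹ = quadraticChar F :=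
    (quadraticChar_isQuadratic F).inv
  rw [hinv] at h1
  unfold jacobiSum at h1
  have hδ' : -δ ≠ 0 := neg_ne_zero.mpr hδ
  have h2 : ∑ u : F, quadraticChar F u * quadraticChar F (u + δ)
      = ∑ x : F, quadraticChar F (-δ * x) * quadraticChar F (-δ * x + δ) := by
    symm
    exact Fintype.sum_bijective (fun x : F => -δ * x) (mulLeft_bijective₀ (-δ) hδ') _ _
      (fun x => rfl)
  rw [h2]
  have h3 : ∀ x : F, quadraticChar F (-δ * x) * quadraticChar F (-δ * x + δ)
      = quadraticChar F (-1) *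
        (quadraticChar F x * quadraticChar F (1 - x)) := by
    intro x
    have e1 : -δ * x + δ = δ * (1 - x) := by ring
    have e2 : -δ * x = (-1) * (δ * x) := by ring
    have hs : quadraticChar F δ * quadraticChar F δ = 1 := by
      have := quadraticChar_sq_one hδ
      rw [pow_two] at this
      exact this
    rw [e1, e2, map_mul, map_mul, map_mul]
    calc _ = quadraticChar F (-1) * (quadraticChar F x *
          quadraticChar F (1 - x)) * (quadraticChar F δ * quadraticChar F δ) := by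
          ring
      _ = _ := by rw [hs, mul_one]
  rw [Finset.sum_congr rfl (fun x _ => h3 x), ← Finset.mul_sum, h1]
  have hm1 : quadraticChar F (-1) * quadraticChar F (-1) = 1 := by
    have := quadraticChar_sq_one (F := F) (a := (-1 : F)) (by simp)
    rw [pow_two] at this
    exact this
  linarith

lemma shift_sumF (hF : ringChar F ≠ 2) (y y' : F) :
    ∑ x : F, chiF (x + y) * chiF (x + y')
      = (if y = y' then (Fintype.card F : ℝ) else 0) - 1 := by
  have h1 : ∑ x : F, chiF (x + y) * chiF (x + y')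
      = ∑ u : F, chiF u * chiF (u + (y' - y)) := by
    refine Fintype.sum_bijective (fun x : F => x + y)
      (Equiv.addRight y).bijective _ _ (fun x => ?_)
    congr 2
    ring
  rw [h1]
  by_cases h : y = y'
  · subst h
    rw [if_pos rfl]
    have h2 : ∀ u : F, chiF u * chiF (u + (y - y)) = if u = 0 then 0 else 1 := by
      intro u
      unfold chiF
      by_cases hu : u = 0
      · simp [hu]
      · rw [if_neg hu]
        have := quadraticChar_sq_one hu
        rw [pow_two] at this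
        have e : u + (y - y) = u := by ring
        rw [e]
        exact_mod_cast this
    rw [Finset.sum_congr rfl (fun u _ => h2 u), Finset.sum_ite, Finset.sum_const_zero, zero_add,
      Finset.sum_const, nsmul_eq_mul, mul_one]
    have h3 : (Finset.univ.filter (fun u : F => ¬ u = 0)).card = Fintype.card F - 1 := by
      have e : (Finset.univ.filter (fun u : F => ¬ u = 0)) = Finset.univ.erase 0 := by
        ext u; simp
      rw [e, Finset.card_erase_of_mem (Finset.mem_univ _), Finset.card_univ]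
    rw [h3]
    have hq1 : 1 ≤ Fintype.card F := Fintype.card_pos
    push_cast [Nat.cast_sub hq1]
    ring
  · rw [if_neg h]
    have h3 := shift_sum_intF hF (y' - y) (sub_ne_zero.mpr (Ne.symm h))
    unfold chiF
    have h4 : ((∑ u : F, quadraticChar F u *
        quadraticChar F (u + (y' - y)) : ℤ) : ℝ) = ((-1 : ℤ) : ℝ) := by rw [h3]
    push_cast at h4
    rw [h4]; ring

/-- The operator `G ↦ ∑ y, χ (x + y) G y` has norm at most `√q`. -/
lemma op_oneF (hF : ringChar F ≠ 2) (G : F → ℝ) :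
    ∑ x : F, (∑ y : F, chiF (x + y) * G y) ^ 2 ≤ (Fintype.card F : ℝ) * ∑ y : F, G y ^ 2 := by
  have h1 : ∑ x : F, (∑ y : F, chiF (x + y) * G y) ^ 2
      = ∑ y : F, ∑ y' : F, (G y * G y') *
          ∑ x : F, chiF (x + y) * chiF (x + y') := by
    have e1 : ∀ x : F, (∑ y : F, chiF (x + y) * G y) ^ 2
        = ∑ y : F, ∑ y' : F, (G y * G y') * (chiF (x + y) * chiF (x + y')) := by
      intro x
      rw [pow_two, Finset.sum_mul_sum]
      refine Finset.sum_congr rfl (fun y _ => Finset.sum_congr rfl (fun y' _ => ?_))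
      ring
    rw [Finset.sum_congr rfl (fun x _ => e1 x), Finset.sum_comm]
    refine Finset.sum_congr rfl (fun y _ => ?_)
    rw [Finset.sum_comm]
    refine Finset.sum_congr rfl (fun y' _ => ?_)
    rw [Finset.mul_sum]
  rw [h1]
  have h2 : ∀ y : F, ∑ y' : F, (G y * G y') *
          ∑ x : F, chiF (x + y) * chiF (x + y')
      = (Fintype.card F : ℝ) * G y ^ 2 - G y * ∑ y' : F, G y' := by
    intro y
    have e : ∀ y' : F, (G y * G y') * ∑ x : F, chiF (x + y) * chiF (x + y')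
        = (if y = y' then (Fintype.card F : ℝ) * (G y * G y') else 0) - G y * G y' := by
      intro y'
      rw [shift_sumF hF]
      split_ifs <;> ring
    rw [Finset.sum_congr rfl (fun y' _ => e y'), Finset.sum_sub_distrib, Finset.sum_ite_eq,
      if_pos (Finset.mem_univ y), ← Finset.mul_sum]
    ring
  rw [Finset.sum_congr rfl (fun y _ => h2 y), Finset.sum_sub_distrib, ← Finset.mul_sum,
    ← Finset.sum_mul]
  have h3 : 0 ≤ (∑ y : F, G y) * ∑ y : F, G y := mul_self_nonneg _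
  linarith

/-- Two coordinates. -/
lemma op_twoF (hF : ringChar F ≠ 2) (G : F → F → ℝ) :
    ∑ x : F, ∑ x' : F, (∑ y : F, ∑ y' : F,
        chiF (x + y) * chiF (x' + y') * G y y') ^ 2
      ≤ (Fintype.card F : ℝ) ^ 2 * ∑ y : F, ∑ y' : F, G y y' ^ 2 := by
  have h1 : ∀ (x : F) (x' : F), ∑ y : F, ∑ y' : F,
        chiF (x + y) * chiF (x' + y') * G y y'
      = ∑ y : F, chiF (x + y) * (∑ y' : F, chiF (x' + y') * G y y') := by
    intro x x'
    refine Finset.sum_congr rfl (fun y _ => ?_)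
    rw [Finset.mul_sum]
    refine Finset.sum_congr rfl (fun y' _ => ?_)
    ring
  have h2 : ∑ x : F, ∑ x' : F, (∑ y : F, ∑ y' : F,
        chiF (x + y) * chiF (x' + y') * G y y') ^ 2
      = ∑ x' : F, ∑ x : F, (∑ y : F, chiF (x + y) *
          (∑ y' : F, chiF (x' + y') * G y y')) ^ 2 := by
    rw [Finset.sum_comm]
    refine Finset.sum_congr rfl (fun x' _ => Finset.sum_congr rfl (fun x _ => ?_))
    rw [h1]
  rw [h2]
  calc ∑ x' : F, ∑ x : F, (∑ y : F, chiF (x + y) *
          (∑ y' : F, chiF (x' + y') * G y y')) ^ 2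
      ≤ ∑ x' : F, (Fintype.card F : ℝ) *
          ∑ y : F, (∑ y' : F, chiF (x' + y') * G y y') ^ 2 :=
        Finset.sum_le_sum (fun x' _ => op_oneF hF _)
    _ = (Fintype.card F : ℝ) *
          ∑ y : F, ∑ x' : F, (∑ y' : F, chiF (x' + y') * G y y') ^ 2 := by
        rw [← Finset.mul_sum, Finset.sum_comm]
    _ ≤ (Fintype.card F : ℝ) * ∑ y : F, (Fintype.card F : ℝ) * ∑ y' : F, G y y' ^ 2 := by
        refine mul_le_mul_of_nonneg_left ?_ (Nat.cast_nonneg _)
        exact Finset.sum_le_sum (fun y _ => op_oneF hF _)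
    _ = _ := by
        rw [← Finset.mul_sum]; ring

lemma chiF_square (a : F) (ha : IsSquare a) : chiF a = if a = 0 then 0 else 1 := by
  unfold chiF
  split_ifs with h
  · subst h; simp
  · obtain ⟨m, rfl⟩ := ha
    have hm : m ≠ 0 := fun h0 => h (by rw [h0, mul_zero])
    have := quadraticChar_sq_one' (F := F) hm
    rw [pow_two] at this
    rw [this]; simp

variable {G : Type*} [AddCommGroup G] [DecidableEq G] {ι : Type*} [DecidableEq ι]

/-- Push forward of a weight to `F × F`. -/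
noncomputable def pushF (φ ψ : G → F) (S : Finset G) (g : G → ℝ) (y y' : F) : ℝ :=
  ∑ s ∈ S, if φ s = y ∧ ψ s = y' then g s else 0

lemma push_sumF (φ ψ : G → F) (S : Finset G) (g : G → ℝ) (h : F → F → ℝ) :
    ∑ y : F, ∑ y' : F, h y y' * pushF φ ψ S g y y'
      = ∑ s ∈ S, h (φ s) (ψ s) * g s := by
  unfold pushF
  have e1 : ∀ (y : F) (y' : F),
      h y y' * (∑ s ∈ S, if φ s = y ∧ ψ s = y' then g s else 0)
      = ∑ s ∈ S, if φ s = y then (if ψ s = y' then h y y' * g s else 0)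
          else 0 := by
    intro y y'
    rw [Finset.mul_sum]
    refine Finset.sum_congr rfl (fun s _ => ?_)
    by_cases h1 : φ s = y
    · by_cases h2 : ψ s = y'
      · simp [h1, h2]
      · simp [h1, h2]
    · simp [h1]
  rw [Finset.sum_congr rfl (fun y _ => Finset.sum_congr rfl (fun y' _ => e1 y y'))]
  have e2 : ∀ y : F, ∑ y' : F, ∑ s ∈ S,
      (if φ s = y then (if ψ s = y' then h y y' * g s else 0) else 0)
      = ∑ s ∈ S, if φ s = y then h y (ψ s) * g s else 0 := by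
    intro y
    rw [Finset.sum_comm]
    refine Finset.sum_congr rfl (fun s _ => ?_)
    by_cases h1 : φ s = y
    · simp [h1]
    · simp [h1]
  rw [Finset.sum_congr rfl (fun y _ => e2 y), Finset.sum_comm]
  refine Finset.sum_congr rfl (fun s _ => ?_)
  simp

/-- Weighted number of pairs which agree under `φ` and under `ψ`. -/
noncomputable def collF (φ ψ : G → F) (S : Finset G) (g : G → ℝ) : ℝ :=
  ∑ s ∈ S, ∑ s' ∈ S, if φ s = φ s' ∧ ψ s = ψ s' then g s * g s' else 0

lemma push_sqF (φ ψ : G → F) (S : Finset G) (g : G → ℝ) :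
    ∑ y : F, ∑ y' : F, pushF φ ψ S g y y' ^ 2 = collF φ ψ S g := by
  have e1 : ∑ y : F, ∑ y' : F, pushF φ ψ S g y y' ^ 2
      = ∑ y : F, ∑ y' : F, pushF φ ψ S g y y' * pushF φ ψ S g y y' := by
    refine Finset.sum_congr rfl (fun y _ => Finset.sum_congr rfl (fun y' _ => ?_))
    rw [pow_two]
  rw [e1, push_sumF φ ψ S g (fun y y' => pushF φ ψ S g y y')]
  unfold pushF collF
  refine Finset.sum_congr rfl (fun s _ => ?_)
  rw [Finset.sum_mul]
  refine Finset.sum_congr rfl (fun s' _ => ?_)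
  by_cases hc : φ s = φ s' ∧ ψ s = ψ s'
  · rw [if_pos hc, if_pos ⟨hc.1.symm, hc.2.symm⟩]; ring
  · rw [if_neg hc, if_neg (fun h => hc ⟨h.1.symm, h.2.symm⟩)]; ring

lemma collF_nonneg (φ ψ : G → F) (S : Finset G) (g : G → ℝ) :
    0 ≤ collF φ ψ S g := by
  rw [← push_sqF φ ψ S g]
  exact Finset.sum_nonneg (fun y _ => Finset.sum_nonneg (fun y' _ => sq_nonneg _))

/-- The bilinear form. -/
noncomputable def bilF (φ ψ : G → F) (B S : Finset G) (f g : G → ℝ) : ℝ :=
  ∑ b ∈ B, ∑ s ∈ S, f b * g s * (chiF (φ (b + s)) * chiF (ψ (b + s)))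

lemma pair_boundF (hF : ringChar F ≠ 2) (φ ψ : G → F)
    (hφ : ∀ x y, φ (x + y) = φ x + φ y) (hψ : ∀ x y, ψ (x + y) = ψ x + ψ y)
    (B S : Finset G) (f g : G → ℝ) :
    bilF φ ψ B S f g ^ 2
      ≤ (Fintype.card F : ℝ) ^ 2 * (collF φ ψ B f * collF φ ψ S g) := by
  set Φ : F → F → ℝ := fun x x' => ∑ y : F, ∑ y' : F,
      chiF (x + y) * chiF (x' + y') * pushF φ ψ S g y y' with hΦ
  have e1 : bilF φ ψ B S f g
      = ∑ x : F, ∑ x' : F, Φ x x' * pushF φ ψ B f x x' := by
    rw [push_sumF φ ψ B f Φ]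
    unfold bilF
    refine Finset.sum_congr rfl (fun b _ => ?_)
    rw [hΦ]
    simp only
    rw [push_sumF φ ψ S g (fun y y' => chiF (φ b + y) * chiF (ψ b + y')),
      Finset.sum_mul]
    refine Finset.sum_congr rfl (fun s _ => ?_)
    rw [hφ, hψ]
    ring
  have e2 : (∑ x : F, ∑ x' : F, Φ x x' * pushF φ ψ B f x x') ^ 2
      ≤ (∑ x : F, ∑ x' : F, Φ x x' ^ 2) *
        (∑ x : F, ∑ x' : F, pushF φ ψ B f x x' ^ 2) := by
    have := Finset.sum_mul_sq_le_sq_mul_sq (Finset.univ : Finset (F × F))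
      (fun p => Φ p.1 p.2) (fun p => pushF φ ψ B f p.1 p.2)
    simpa only [Fintype.sum_prod_type] using this
  have e3 := op_twoF hF (pushF φ ψ S g)
  rw [push_sqF] at e2 e3
  rw [e1]
  calc _ ≤ _ := e2
    _ ≤ ((Fintype.card F : ℝ) ^ 2 * collF φ ψ S g) * collF φ ψ B f :=
        mul_le_mul_of_nonneg_right e3 (collF_nonneg φ ψ B f)
    _ = _ := by ring

/-- Counting coincidences. -/
lemma coll_sumF (P : Finset ι) (φ : ι → G → F) (W : ℕ) (B : Finset G) (f : G → ℝ)
    (hf : ∀ b ∈ B, 0 ≤ f b)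
    (hB : ∀ b ∈ B, ∀ b' ∈ B, b ≠ b' → (P.filter (fun i => φ i b = φ i b')).card ≤ W) :
    ∑ p ∈ P ×ˢ P, collF (φ p.1) (φ p.2) B f
      ≤ (P.card : ℝ) ^ 2 * (∑ b ∈ B, f b ^ 2) + (W : ℝ) ^ 2 * (∑ b ∈ B, f b) ^ 2 := by
  have h1 : ∑ p ∈ P ×ˢ P, collF (φ p.1) (φ p.2) B f
      = ∑ b ∈ B, ∑ b' ∈ B, (f b * f b') *
          ((P.filter (fun i => φ i b = φ i b')).card : ℝ) ^ 2 := by
    unfold collF
    rw [Finset.sum_comm]
    refine Finset.sum_congr rfl (fun b _ => ?_)
    rw [Finset.sum_comm]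
    refine Finset.sum_congr rfl (fun b' _ => ?_)
    rw [← Finset.sum_filter, Finset.sum_const, nsmul_eq_mul]
    have : ((P ×ˢ P).filter (fun p : ι × ι => φ p.1 b = φ p.1 b' ∧ φ p.2 b = φ p.2 b'))
        = (P.filter (fun i => φ i b = φ i b')) ×ˢ (P.filter (fun i => φ i b = φ i b')) := by
      ext p
      simp only [Finset.mem_filter, Finset.mem_product]
      tauto
    rw [this, Finset.card_product]
    push_cast
    ring
  rw [h1]
  have h2 : ∀ b ∈ B, ∀ b' ∈ B, (f b * f b') *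
          ((P.filter (fun i => φ i b = φ i b')).card : ℝ) ^ 2
        ≤ (if b = b' then (P.card : ℝ) ^ 2 * (f b * f b') else 0)
          + (W : ℝ) ^ 2 * (f b * f b') := by
    intro b hb b' hb'
    have hff : 0 ≤ f b * f b' := mul_nonneg (hf b hb) (hf b' hb')
    split_ifs with h
    · have hc : ((P.filter (fun i => φ i b = φ i b')).card : ℝ) ^ 2 ≤ (P.card : ℝ) ^ 2 := by
        have : ((P.filter (fun i => φ i b = φ i b')).card : ℝ) ≤ (P.card : ℝ) := by
          exact_mod_cast Finset.card_filter_le _ _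
        exact pow_le_pow_left₀ (Nat.cast_nonneg _) this 2
      have := mul_le_mul_of_nonneg_left hc hff
      have h0 : 0 ≤ (W : ℝ) ^ 2 * (f b * f b') := mul_nonneg (sq_nonneg _) hff
      linarith
    · have hc : ((P.filter (fun i => φ i b = φ i b')).card : ℝ) ^ 2 ≤ (W : ℝ) ^ 2 := by
        have : ((P.filter (fun i => φ i b = φ i b')).card : ℝ) ≤ (W : ℝ) := by
          exact_mod_cast hB b hb b' hb' h
        exact pow_le_pow_left₀ (Nat.cast_nonneg _) this 2
      have := mul_le_mul_of_nonneg_left hc hff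
      linarith
  calc _ ≤ ∑ b ∈ B, ∑ b' ∈ B, ((if b = b' then (P.card : ℝ) ^ 2 * (f b * f b') else 0)
          + (W : ℝ) ^ 2 * (f b * f b')) :=
        Finset.sum_le_sum (fun b hb => Finset.sum_le_sum (fun b' hb' => h2 b hb b' hb'))
    _ = _ := by
        have e1 : ∀ b ∈ B, ∑ b' ∈ B, ((if b = b' then (P.card : ℝ) ^ 2 * (f b * f b') else 0)
          + (W : ℝ) ^ 2 * (f b * f b'))
            = (P.card : ℝ) ^ 2 * f b ^ 2 + (W : ℝ) ^ 2 * (f b * ∑ b' ∈ B, f b') := by
          intro b hb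
          rw [Finset.sum_add_distrib, Finset.sum_ite_eq, if_pos hb, ← Finset.mul_sum,
            ← Finset.mul_sum]
          ring
        rw [Finset.sum_congr rfl e1, Finset.sum_add_distrib, ← Finset.mul_sum, ← Finset.mul_sum,
          ← Finset.sum_mul]
        ring

/-- The square sum sieve for additive maps to a finite field. -/
theorem sieveF (hF : ringChar F ≠ 2) (P : Finset ι) (φ : ι → G → F)
    (hφ : ∀ i x y, φ i (x + y) = φ i x + φ i y) (W : ℕ)
    (hWP : W ≤ P.card) (B S : Finset G) (f g : G → ℝ)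
    (hf : ∀ b ∈ B, 0 ≤ f b) (hg : ∀ s ∈ S, 0 ≤ g s)
    (hB : ∀ b ∈ B, ∀ b' ∈ B, b ≠ b' → (P.filter (fun i => φ i b = φ i b')).card ≤ W)
    (hS : ∀ s ∈ S, ∀ s' ∈ S, s ≠ s' → (P.filter (fun i => φ i s = φ i s')).card ≤ W)
    (Good : G → G → Prop) [∀ b s, Decidable (Good b s)]
    (hG : ∀ b ∈ B, ∀ s ∈ S, Good b s →
      (∀ i ∈ P, IsSquare (φ i (b + s))) ∧ (P.filter (fun i => φ i (b + s) = 0)).card ≤ W) :
    ((P.card : ℝ) - W) ^ 2 * (∑ b ∈ B, ∑ s ∈ S, if Good b s then f b * g s else 0)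
      ≤ (Fintype.card F : ℝ) *
        (Real.sqrt ((P.card : ℝ) ^ 2 * (∑ b ∈ B, f b ^ 2) + (W : ℝ) ^ 2 * (∑ b ∈ B, f b) ^ 2) *
        Real.sqrt ((P.card : ℝ) ^ 2 * (∑ s ∈ S, g s ^ 2) + (W : ℝ) ^ 2 * (∑ s ∈ S, g s) ^ 2)) := by
  have hWP' : (W : ℝ) ≤ (P.card : ℝ) := by exact_mod_cast hWP
  -- step one: pointwise lower bound
  have h1 : ∀ b ∈ B, ∀ s ∈ S, ((P.card : ℝ) - W) ^ 2 * (if Good b s then f b * g s else 0)
      ≤ (f b * g s) * (∑ i ∈ P, chiF (φ i (b + s))) ^ 2 := by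
    intro b hb s hs
    have hfg : 0 ≤ f b * g s := mul_nonneg (hf b hb) (hg s hs)
    split_ifs with h
    · obtain ⟨hsq, hc⟩ := hG b hb s hs h
      have e : ∑ i ∈ P, chiF (φ i (b + s))
          = (P.card : ℝ) - ((P.filter (fun i => φ i (b + s) = 0)).card : ℝ) := by
        have e1 : ∀ i ∈ P, chiF (φ i (b + s)) = 1 - (if φ i (b + s) = 0 then 1 else 0) := by
          intro i hi
          rw [chiF_square _ (hsq i hi)]
          split_ifs <;> ring
        rw [Finset.sum_congr rfl e1, Finset.sum_sub_distrib]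
        simp
      have hc' : ((P.filter (fun i => φ i (b + s) = 0)).card : ℝ) ≤ W := by exact_mod_cast hc
      have h2 : ((P.card : ℝ) - W) ^ 2 ≤ (∑ i ∈ P, chiF (φ i (b + s))) ^ 2 := by
        rw [e]
        exact pow_le_pow_left₀ (by linarith) (by linarith) 2
      calc ((P.card : ℝ) - W) ^ 2 * (f b * g s) = (f b * g s) * ((P.card : ℝ) - W) ^ 2 := by ring
        _ ≤ _ := mul_le_mul_of_nonneg_left h2 hfg
    · rw [mul_zero]
      exact mul_nonneg hfg (sq_nonneg _)
  -- step two: expansion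
  have h2 : ∑ b ∈ B, ∑ s ∈ S, (f b * g s) * (∑ i ∈ P, chiF (φ i (b + s))) ^ 2
      = ∑ p ∈ P ×ˢ P, bilF (φ p.1) (φ p.2) B S f g := by
    unfold bilF
    rw [Finset.sum_comm (s := P ×ˢ P)]
    refine Finset.sum_congr rfl (fun b _ => ?_)
    rw [Finset.sum_comm (s := P ×ˢ P)]
    refine Finset.sum_congr rfl (fun s _ => ?_)
    rw [pow_two, Finset.sum_mul_sum, ← Finset.sum_product', Finset.mul_sum]
  -- step three: bound for each pair
  have h3 : ∀ p ∈ P ×ˢ P, bilF (φ p.1) (φ p.2) B S f g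
      ≤ (Fintype.card F : ℝ) *
        (Real.sqrt (collF (φ p.1) (φ p.2) B f) * Real.sqrt (collF (φ p.1) (φ p.2) S g)) := by
    intro p _
    have hb := pair_boundF hF (φ p.1) (φ p.2) (hφ p.1) (hφ p.2) B S f g
    have c1 := collF_nonneg (φ p.1) (φ p.2) B f
    have c2 := collF_nonneg (φ p.1) (φ p.2) S g
    have hb2 : bilF (φ p.1) (φ p.2) B S f g ^ 2
        ≤ ((Fintype.card F : ℝ) * (Real.sqrt (collF (φ p.1) (φ p.2) B f) *
          Real.sqrt (collF (φ p.1) (φ p.2) S g))) ^ 2 := by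
      calc _ ≤ _ := hb
        _ = _ := by
            rw [mul_pow, mul_pow, Real.sq_sqrt c1, Real.sq_sqrt c2]
    exact le_of_sq_le_sq hb2 (by positivity)
  -- step four: Cauchy
  have h4 : ∑ p ∈ P ×ˢ P, Real.sqrt (collF (φ p.1) (φ p.2) B f) *
        Real.sqrt (collF (φ p.1) (φ p.2) S g)
      ≤ Real.sqrt (∑ p ∈ P ×ˢ P, collF (φ p.1) (φ p.2) B f) *
        Real.sqrt (∑ p ∈ P ×ˢ P, collF (φ p.1) (φ p.2) S g) := by
    have hcB : ∀ p ∈ P ×ˢ P, 0 ≤ collF (φ p.1) (φ p.2) B f :=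
      fun p _ => collF_nonneg _ _ B f
    have hcS : ∀ p ∈ P ×ˢ P, 0 ≤ collF (φ p.1) (φ p.2) S g :=
      fun p _ => collF_nonneg _ _ S g
    rw [← Real.sqrt_mul (Finset.sum_nonneg hcB)]
    apply Real.le_sqrt_of_sq_le
    have := Finset.sum_mul_sq_le_sq_mul_sq (P ×ˢ P)
      (fun p => Real.sqrt (collF (φ p.1) (φ p.2) B f))
      (fun p => Real.sqrt (collF (φ p.1) (φ p.2) S g))
    refine this.trans (le_of_eq ?_)
    congr 1
    · exact Finset.sum_congr rfl (fun p hp => Real.sq_sqrt (hcB p hp))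
    · exact Finset.sum_congr rfl (fun p hp => Real.sq_sqrt (hcS p hp))
  have h5 := coll_sumF P φ W B f hf hB
  have h6 := coll_sumF P φ W S g hg hS
  calc ((P.card : ℝ) - W) ^ 2 * (∑ b ∈ B, ∑ s ∈ S, if Good b s then f b * g s else 0)
      = ∑ b ∈ B, ∑ s ∈ S, ((P.card : ℝ) - W) ^ 2 * (if Good b s then f b * g s else 0) := by
        rw [Finset.mul_sum]
        refine Finset.sum_congr rfl (fun b _ => ?_)
        rw [Finset.mul_sum]
    _ ≤ ∑ b ∈ B, ∑ s ∈ S, (f b * g s) * (∑ i ∈ P, chiF (φ i (b + s))) ^ 2 :=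
        Finset.sum_le_sum (fun b hb => Finset.sum_le_sum (fun s hs => h1 b hb s hs))
    _ = ∑ p ∈ P ×ˢ P, bilF (φ p.1) (φ p.2) B S f g := h2
    _ ≤ ∑ p ∈ P ×ˢ P, (Fintype.card F : ℝ) *
          (Real.sqrt (collF (φ p.1) (φ p.2) B f) * Real.sqrt (collF (φ p.1) (φ p.2) S g)) :=
        Finset.sum_le_sum h3
    _ = (Fintype.card F : ℝ) * ∑ p ∈ P ×ˢ P,
          (Real.sqrt (collF (φ p.1) (φ p.2) B f) * Real.sqrt (collF (φ p.1) (φ p.2) S g)) := by
        rw [Finset.mul_sum]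
    _ ≤ (Fintype.card F : ℝ) * (Real.sqrt (∑ p ∈ P ×ˢ P, collF (φ p.1) (φ p.2) B f) *
        Real.sqrt (∑ p ∈ P ×ˢ P, collF (φ p.1) (φ p.2) S g)) :=
        mul_le_mul_of_nonneg_left h4 (Nat.cast_nonneg _)
    _ ≤ _ := by
        refine mul_le_mul_of_nonneg_left ?_ (Nat.cast_nonneg _)
        exact mul_le_mul (Real.sqrt_le_sqrt h5) (Real.sqrt_le_sqrt h6) (Real.sqrt_nonneg _)
          (Real.sqrt_nonneg _)

end FieldSieve

end H91SQ
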