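import Mathlib

set_option autoImplicit false

namespace H91SQ

open Finset

/-- At least `Y` odd primes up to `17 Y log Y`. -/
lemma exists_primes (Y : ℝ) (hY : 8 ≤ Y) :
    ∃ (D : ℕ) (P : Finset ℕ), (∀ q ∈ P, q.Prime ∧ q ≠ 2 ∧ q ≤ D) ∧ Y ≤ (P.card : ℝ) ∧
      (D : ℝ) ≤ 17 * (Y * Real.log Y) := by
  have hlog1 : 1 ≤ Real.log Y := by
    rw [Real.le_log_iff_exp_le (by linarith)]
    have := Real.exp_one_lt_d9
    linarith
  have hlogY : Real.log Y ≤ Y := (Real.log_le_sub_one_of_pos (by linarith)).trans (by linarith)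
  have hYlog : 8 ≤ Y * Real.log Y := by nlinarith
  set D := ⌈16 * (Y * Real.log Y)⌉₊ with hD
  have hD1 : 16 * (Y * Real.log Y) ≤ (D : ℝ) := Nat.le_ceil _
  have hD2 : (D : ℝ) ≤ 16 * (Y * Real.log Y) + 1 := (Nat.ceil_lt_add_one (by positivity)).le
  have hD3 : (D : ℝ) ≤ 17 * (Y * Real.log Y) := by linarith
  have hD4 : (D : ℝ) + 1 ≤ Y ^ 4 := by
    have h1 : Y * Real.log Y ≤ Y * Y := mul_le_mul_of_nonneg_left hlogY (by linarith)
    have h2 : (64 : ℝ) ≤ Y ^ 2 := by nlinarith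
    nlinarith
  have hDpos : (0 : ℝ) < D := by linarith
  have hl1 : Real.log D ≤ 4 * Real.log Y := by
    have : Real.log D ≤ Real.log (Y ^ 4) := Real.log_le_log hDpos (by linarith)
    rw [Real.log_pow] at this
    exact_mod_cast this
  have hl2 : Real.log ((D : ℝ) + 1) ≤ 4 * Real.log Y := by
    have : Real.log ((D : ℝ) + 1) ≤ Real.log (Y ^ 4) := Real.log_le_log (by linarith) hD4
    rw [Real.log_pow] at this
    exact_mod_cast this
  have hlD : 0 < Real.log D := Real.log_pos (by linarith)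
  have hpi := Chebyshev.pi_ge D
  rw [div_le_iff₀ hlD] at hpi
  have hlog2 : (0.69 : ℝ) ≤ Real.log 2 := by
    have := Real.log_two_gt_d9
    linarith
  have hpi2 : Y + 1 ≤ (Nat.primeCounting D : ℝ) := by
    by_contra hcon
    push Not at hcon
    have h1 : (Nat.primeCounting D : ℝ) * Real.log D ≤ (Y + 1) * (4 * Real.log Y) := by
      calc _ ≤ (Y + 1) * Real.log D := mul_le_mul_of_nonneg_right hcon.le hlD.le
        _ ≤ _ := mul_le_mul_of_nonneg_left hl1 (by linarith)
    have h2 : 16 * (Y * Real.log Y) * 0.69 ≤ (D : ℝ) * Real.log 2 :=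
      mul_le_mul hD1 hlog2 (by norm_num) hDpos.le
    nlinarith
  refine ⟨D, (Nat.primesLE D).erase 2, ?_, ?_, hD3⟩
  · intro q hq
    rw [Finset.mem_erase, Nat.mem_primesLE] at hq
    exact ⟨hq.2.2, hq.1, hq.2.1⟩
  · have h1 : (Nat.primesLE D).card ≤ ((Nat.primesLE D).erase 2).card + 1 := by
      have := Finset.pred_card_le_card_erase (s := Nat.primesLE D) (a := 2)
      omega
    rw [Nat.primesLE_card_eq_primeCounting] at h1
    have h2 : (Nat.primeCounting D : ℝ) ≤ (((Nat.primesLE D).erase 2).card : ℝ) + 1 := by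
      exact_mod_cast h1
    linarith

end H91SQ
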