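import Pool.Agent.H91.SQ.Energy
import Pool.Agent.H91.SQ.Primes

set_option autoImplicit false

namespace H91SQ

open Finset

/-- Energy bound for integer squares of height at most `H`. -/
theorem int_bound (H : ℕ) (A : Finset ℤ) (hH : 2 ≤ H) (hn2 : 2 ≤ A.card)
    (hA : ∀ a ∈ A, ∃ x : ℤ, |x| ≤ (H : ℤ) ∧ a = x ^ 2) :
    (en A : ℝ) ≤ 9000 * (A.card : ℝ) ^ ((5 : ℝ) / 2) * Real.log H * Real.log A.card := by
  set W := Nat.log 2 (2 * H ^ 2) with hW
  set n : ℝ := (A.card : ℝ) with hn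
  have hn2' : (2 : ℝ) ≤ n := by rw [hn]; exact_mod_cast hn2
  have hH' : (2 : ℝ) ≤ H := by exact_mod_cast hH
  have hlog2 : (0.69 : ℝ) ≤ Real.log 2 := by
    have := Real.log_two_gt_d9
    linarith
  have hlogH : Real.log 2 ≤ Real.log H := Real.log_le_log (by norm_num) hH'
  have hlogn : Real.log 2 ≤ Real.log n := Real.log_le_log (by norm_num) hn2'
  have hW3 : 3 ≤ W := by
    apply Nat.le_log_of_pow_le (by norm_num)
    nlinarith
  have hW3' : (3 : ℝ) ≤ W := by exact_mod_cast hW3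
  have hWle : (W : ℝ) ≤ 5 * Real.log H := by
    have h1 : 2 ^ W ≤ 2 * H ^ 2 := Nat.pow_log_le_self 2 (by positivity)
    have h2 : ((2 : ℝ)) ^ W ≤ 2 * (H : ℝ) ^ 2 := by exact_mod_cast h1
    have h3 : Real.log ((2 : ℝ) ^ W) ≤ Real.log (2 * (H : ℝ) ^ 2) :=
      Real.log_le_log (by positivity) h2
    rw [Real.log_pow, Real.log_mul (by norm_num) (by positivity), Real.log_pow] at h3
    push_cast at h3
    nlinarith
  set R : ℝ := Real.sqrt n with hR
  have hR2 : R ^ 2 = n := Real.sq_sqrt (by linarith)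
  have hR14 : (1.4 : ℝ) ≤ R := by
    apply Real.le_sqrt_of_sq_le
    norm_num
    linarith
  have hR0 : 0 < R := by linarith
  have hcase : n ^ ((5 : ℝ) / 2) = n ^ 2 * R := by
    have : (5 : ℝ) / 2 = 2 + 1 / 2 := by norm_num
    rw [this, Real.rpow_add (by linarith), hR, Real.sqrt_eq_rpow]
    congr 1
    exact_mod_cast Real.rpow_natCast n 2
  set Y : ℝ := 2 * (W : ℝ) * R with hY
  have hY8 : 8 ≤ Y := by nlinarith
  obtain ⟨D, P, hP, hPY, hD⟩ := exists_primes Y hY8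
  have hPpos : 0 < P.card := by
    have : (0 : ℝ) < P.card := by linarith
    exact_mod_cast this
  have h2W : 2 * W ≤ P.card := by
    have : (2 * (W : ℝ)) ≤ P.card := by nlinarith
    exact_mod_cast this
  have hWn : W ^ 2 * A.card ≤ P.card ^ 2 := by
    have h1 : (W : ℝ) * R ≤ P.card := by nlinarith
    have h2 : ((W : ℝ) * R) ^ 2 ≤ (P.card : ℝ) ^ 2 := pow_le_pow_left₀ (by positivity) h1 2
    rw [mul_pow, hR2, hn] at h2
    exact_mod_cast h2
  have hsieve := energy_sieve A (H ^ 2) D P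
    (by
      intro a ha
      obtain ⟨x, _, rfl⟩ := hA a ha
      exact ⟨x, by ring⟩)
    (by
      intro a ha
      obtain ⟨x, hx, rfl⟩ := hA a ha
      push_cast
      rw [← sq_abs]
      exact pow_le_pow_left₀ (abs_nonneg _) hx 2)
    hP hPpos h2W hWn
  rw [← hn] at hsieve
  rw [hcase]
  have hn0 : 0 ≤ n ^ 2 := by positivity
  have hlogHpos : 0 < Real.log H := by linarith
  have hlognpos : 0 < Real.log n := by linarith
  by_cases hc : Real.log H ≤ n
  · have hY10 : Y ≤ 10 * Real.log H * R := by nlinarith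
    have hYlog : Real.log Y ≤ 6 * Real.log n := by
      have h1 : Y ≤ 10 * n ^ 2 := by
        have hRn : R ≤ n := by
          have : R * 1 ≤ R * R := mul_le_mul_of_nonneg_left (by linarith) hR0.le
          nlinarith
        calc Y ≤ 10 * Real.log H * R := hY10
          _ ≤ 10 * n * n := by
              apply mul_le_mul _ hRn hR0.le (by positivity)
              linarith
          _ = 10 * n ^ 2 := by ring
      have h2 : 10 * n ^ 2 ≤ n ^ 6 := by
        have : (16 : ℝ) ≤ n ^ 4 := by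
          have := pow_le_pow_left₀ (by norm_num : (0 : ℝ) ≤ 2) hn2' 4
          norm_num at this
          exact this
        nlinarith
      have h3 : Real.log Y ≤ Real.log (10 * n ^ 2) := Real.log_le_log (by linarith) h1
      have h3' : Real.log (10 * n ^ 2) = Real.log 10 + 2 * Real.log n := by
        rw [Real.log_mul (by norm_num) (by positivity), Real.log_pow]; push_cast; ring
      rw [h3'] at h3
      have h4 : Real.log 10 ≤ 3.4 * Real.log 2 := by
        have h5 : Real.log ((10 : ℝ) ^ 5) ≤ Real.log ((2 : ℝ) ^ 17) :=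
          Real.log_le_log (by norm_num) (by norm_num)
        rw [Real.log_pow, Real.log_pow] at h5
        push_cast at h5
        linarith
      nlinarith
    have hYl : Y * Real.log Y ≤ 60 * (R * (Real.log H * Real.log n)) := by
      have hl0 : 0 ≤ Real.log Y := Real.log_nonneg (by linarith)
      calc Y * Real.log Y ≤ (10 * Real.log H * R) * (6 * Real.log n) :=
            mul_le_mul hY10 hYlog hl0 (by positivity)
        _ = _ := by ring
    have hone : 1 ≤ 3 * (R * (Real.log H * Real.log n)) := by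
      have h1 : (0.69 : ℝ) * 0.69 ≤ Real.log H * Real.log n :=
        mul_le_mul (by linarith) (by linarith) (by norm_num) (by linarith)
      nlinarith
    calc (en A : ℝ) ≤ (1 + 8 * (D : ℝ)) * n ^ 2 := hsieve
      _ ≤ (9000 * (R * (Real.log H * Real.log n))) * n ^ 2 := by
          apply mul_le_mul_of_nonneg_right _ hn0
          linarith
      _ = _ := by ring
  · push Not at hc
    have hcube : (en A : ℝ) ≤ n ^ 3 := by rw [hn]; exact_mod_cast en_le_cube A
    have h1 : n ≤ R * n := by nlinarith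
    calc (en A : ℝ) ≤ n ^ 3 := hcube
      _ = n * n ^ 2 := by ring
      _ ≤ (9000 * (R * (Real.log H * Real.log n))) * n ^ 2 := by
          apply mul_le_mul_of_nonneg_right _ hn0
          have h2 : R * n ≤ R * Real.log H := mul_le_mul_of_nonneg_left hc.le hR0.le
          have h3 : 0 < R * Real.log H := by positivity
          nlinarith
      _ = _ := by ring

/-- The energy of a finite set of rationals, as a count of quadruples. -/
def enQ (A : Finset ℚ) : ℕ :=
  ((A ×ˢ A ×ˢ A ×ˢ A).filter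
    (fun x : ℚ × ℚ × ℚ × ℚ => x.1 + x.2.1 = x.2.2.1 + x.2.2.2)).card

lemma enQ_scale (d : ℕ) (hd : 0 < d) (A : Finset ℚ) (A' : Finset ℤ)
    (h1 : ∀ a ∈ A, ∃ z ∈ A', a = (z : ℚ) / (d : ℚ) ^ 2)
    (h2 : ∀ z ∈ A', (z : ℚ) / (d : ℚ) ^ 2 ∈ A) :
    en A' = enQ A ∧ A'.card = A.card := by
  have hd0 : ((d : ℚ) ^ 2) ≠ 0 := by positivity
  have inj : ∀ z w : ℤ, (z : ℚ) / (d : ℚ) ^ 2 = (w : ℚ) / (d : ℚ) ^ 2 → z = w := by
    intro z w h
    rw [div_left_inj' hd0] at h
    exact_mod_cast h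
  constructor
  · unfold en enQ
    refine Finset.card_bij (fun x _ => ((x.1 : ℚ) / (d : ℚ) ^ 2, (x.2.1 : ℚ) / (d : ℚ) ^ 2,
      (x.2.2.1 : ℚ) / (d : ℚ) ^ 2, (x.2.2.2 : ℚ) / (d : ℚ) ^ 2)) ?_ ?_ ?_
    · intro x hx
      simp only [Finset.mem_filter, Finset.mem_product] at hx ⊢
      refine ⟨⟨h2 _ hx.1.1, h2 _ hx.1.2.1, h2 _ hx.1.2.2.1, h2 _ hx.1.2.2.2⟩, ?_⟩
      rw [← add_div, ← add_div]
      congr 1
      exact_mod_cast hx.2
    · intro x _ y _ hxy
      simp only [Prod.mk.injEq] at hxy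
      ext
      · exact inj _ _ hxy.1
      · exact inj _ _ hxy.2.1
      · exact inj _ _ hxy.2.2.1
      · exact inj _ _ hxy.2.2.2
    · intro y hy
      simp only [Finset.mem_filter, Finset.mem_product] at hy
      obtain ⟨z1, hz1, e1⟩ := h1 _ hy.1.1
      obtain ⟨z2, hz2, e2⟩ := h1 _ hy.1.2.1
      obtain ⟨z3, hz3, e3⟩ := h1 _ hy.1.2.2.1
      obtain ⟨z4, hz4, e4⟩ := h1 _ hy.1.2.2.2
      refine ⟨(z1, z2, z3, z4), ?_, ?_⟩
      · simp only [Finset.mem_filter, Finset.mem_product]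
        refine ⟨⟨hz1, hz2, hz3, hz4⟩, ?_⟩
        have h3 := hy.2
        rw [e1, e2, e3, e4, ← add_div, ← add_div, div_left_inj' hd0] at h3
        exact_mod_cast h3
      · ext
        · exact e1.symm
        · exact e2.symm
        · exact e3.symm
        · exact e4.symm
  · refine Finset.card_bij (fun z _ => (z : ℚ) / (d : ℚ) ^ 2) h2 (fun z _ w _ h => inj z w h) ?_
    intro a ha
    obtain ⟨z, hz, e⟩ := h1 a ha
    exact ⟨z, hz, e.symm⟩

/-- Energy bound for rational squares with common denominator. -/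
theorem rat_bound (d H : ℕ) (A : Finset ℚ) (hd : 0 < d) (hH : 2 ≤ H) (hn2 : 2 ≤ A.card)
    (hA : ∀ a ∈ A, ∃ x : ℤ, |x| ≤ (H : ℤ) ∧ a = ((x : ℚ) / (d : ℚ)) ^ 2) :
    (enQ A : ℝ) ≤ 9000 * (A.card : ℝ) ^ ((5 : ℝ) / 2) * Real.log H * Real.log A.card := by
  have hd0 : ((d : ℚ) ^ 2) ≠ 0 := by positivity
  set A' : Finset ℤ := A.image (fun a => (a * (d : ℚ) ^ 2).num) with hA'
  have key : ∀ a ∈ A, ∃ x : ℤ, |x| ≤ (H : ℤ) ∧ (a * (d : ℚ) ^ 2).num = x ^ 2 ∧
      a = ((a * (d : ℚ) ^ 2).num : ℚ) / (d : ℚ) ^ 2 := by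
    intro a ha
    obtain ⟨x, hx, e⟩ := hA a ha
    have e1 : a * (d : ℚ) ^ 2 = ((x ^ 2 : ℤ) : ℚ) := by
      rw [e]; push_cast; field_simp
    have e2 : (a * (d : ℚ) ^ 2).num = x ^ 2 := by
      rw [e1]; exact Rat.num_intCast _
    refine ⟨x, hx, e2, ?_⟩
    rw [e2, ← e1]
    field_simp
  have h1 : ∀ a ∈ A, ∃ z ∈ A', a = (z : ℚ) / (d : ℚ) ^ 2 := by
    intro a ha
    obtain ⟨x, _, _, e⟩ := key a ha
    exact ⟨_, Finset.mem_image_of_mem _ ha, e⟩
  have h2 : ∀ z ∈ A', (z : ℚ) / (d : ℚ) ^ 2 ∈ A := by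
    intro z hz
    obtain ⟨a, ha, rfl⟩ := Finset.mem_image.mp hz
    obtain ⟨x, _, _, e⟩ := key a ha
    rw [← e]; exact ha
  obtain ⟨e1, e2⟩ := enQ_scale d hd A A' h1 h2
  have := int_bound H A' hH (by rw [e2]; exact hn2) (by
    intro z hz
    obtain ⟨a, ha, rfl⟩ := Finset.mem_image.mp hz
    obtain ⟨x, hx, ex, _⟩ := key a ha
    exact ⟨x, hx, ex⟩)
  rw [e1, e2] at this
  exact this

/-- Cauchy: the sumset is large when the energy is small. -/
lemma sumset_energy (A : Finset ℚ) :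
    A.card ^ 4 ≤ ((A ×ˢ A).image (fun p : ℚ × ℚ => p.1 + p.2)).card * enQ A := by
  set S := (A ×ˢ A).image (fun p : ℚ × ℚ => p.1 + p.2) with hS
  have hmaps : ∀ p ∈ ((A ×ˢ A : Finset (ℚ × ℚ)) : Set (ℚ × ℚ)), p.1 + p.2 ∈ (S : Set ℚ) :=
    fun p hp => Finset.mem_coe.mpr (Finset.mem_image_of_mem
      (fun p : ℚ × ℚ => p.1 + p.2) (Finset.mem_coe.mp hp))
  have h1 := Finset.card_eq_sum_card_fiberwise (s := A ×ˢ A) (t := S)
    (f := fun p : ℚ × ℚ => p.1 + p.2) hmaps
  rw [Finset.card_product] at h1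
  have h2 : enQ A = ∑ s ∈ S, ((A ×ˢ A).filter (fun p : ℚ × ℚ => p.1 + p.2 = s)).card ^ 2 := by
    unfold enQ
    rw [Finset.card_eq_sum_card_fiberwise (t := S)
      (f := fun x : ℚ × ℚ × ℚ × ℚ => x.1 + x.2.1)]
    · refine Finset.sum_congr rfl (fun s _ => ?_)
      rw [pow_two, ← Finset.card_product]
      refine Finset.card_bij (fun x _ => ((x.1, x.2.1), (x.2.2.1, x.2.2.2))) ?_ ?_ ?_
      · intro x hx
        simp only [Finset.mem_filter, Finset.mem_product] at hx ⊢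
        exact ⟨⟨⟨hx.1.1.1, hx.1.1.2.1⟩, hx.2⟩,
          ⟨⟨hx.1.1.2.2.1, hx.1.1.2.2.2⟩, hx.1.2.symm.trans hx.2⟩⟩
      · intro x _ y _ hxy
        simp only [Prod.mk.injEq] at hxy
        ext
        · exact hxy.1.1
        · exact hxy.1.2
        · exact hxy.2.1
        · exact hxy.2.2
      · intro p hp
        simp only [Finset.mem_filter, Finset.mem_product] at hp
        refine ⟨(p.1.1, p.1.2, p.2.1, p.2.2), ?_, rfl⟩
        simp only [Finset.mem_filter, Finset.mem_product]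
        exact ⟨⟨⟨hp.1.1.1, hp.1.1.2, hp.2.1.1, hp.2.1.2⟩, hp.1.2.trans hp.2.2.symm⟩, hp.1.2⟩
    · intro x hx
      have hx' := (Finset.mem_filter.mp (Finset.mem_coe.mp hx)).1
      simp only [Finset.mem_product] at hx'
      exact Finset.mem_coe.mpr (Finset.mem_image.mpr
        ⟨(x.1, x.2.1), Finset.mem_product.mpr ⟨hx'.1, hx'.2.1⟩, rfl⟩)
  rw [h2]
  calc A.card ^ 4 = (A.card * A.card) ^ 2 := by ring
    _ = (∑ s ∈ S, ((A ×ˢ A).filter (fun p : ℚ × ℚ => p.1 + p.2 = s)).card) ^ 2 := by rw [h1]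
    _ ≤ _ := sq_sum_le_card_mul_sum_sq

end H91SQ
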