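import Pool.Agent.H91.SQ.Energy2
import Pool.Agent.H91.SQ.Primes2
import Pool.Agent.H91.SQ.Main

set_option autoImplicit false

namespace H91SQ

open Finset

/-- Energy bound for integer squares of height at most `H`, without `log n`. -/
theorem int_bound2 (H : ℕ) (A : Finset ℤ) (hH : 2 ≤ H)
    (hA : ∀ a ∈ A, ∃ x : ℤ, |x| ≤ (H : ℤ) ∧ a = x ^ 2) :
    (en A : ℝ) ≤ 5000 * (A.card : ℝ) ^ ((5 : ℝ) / 2) * Real.log H := by
  have hH' : (2 : ℝ) ≤ H := by exact_mod_cast hH
  have hlog2 : (0.69 : ℝ) ≤ Real.log 2 := by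
    have := Real.log_two_gt_d9
    linarith
  have hlogH : Real.log 2 ≤ Real.log H := Real.log_le_log (by norm_num) hH'
  by_cases hA0 : A.card = 0
  · have h1 := en_le_cube A
    rw [hA0] at h1
    have h2 : en A = 0 := by simpa using h1
    rw [h2]
    push_cast
    positivity
  set n : ℝ := (A.card : ℝ) with hn
  have hn1 : (1 : ℝ) ≤ n := by
    rw [hn]; exact_mod_cast Nat.one_le_iff_ne_zero.mpr hA0
  set R : ℝ := Real.sqrt n with hR
  have hR2 : R ^ 2 = n := Real.sq_sqrt (by linarith)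
  have hR1 : (1 : ℝ) ≤ R := by
    apply Real.le_sqrt_of_sq_le
    linarith
  have hcase : n ^ ((5 : ℝ) / 2) = n ^ 2 * R := by
    have : (5 : ℝ) / 2 = 2 + 1 / 2 := by norm_num
    rw [this, Real.rpow_add (by linarith), hR, Real.sqrt_eq_rpow]
    congr 1
    exact_mod_cast Real.rpow_natCast n 2
  set U : ℝ := R * Real.log H with hU
  have hU1 : 0.69 ≤ U := by nlinarith
  have hUH : Real.log H ≤ U := by nlinarith
  set D : ℕ := ⌈600 * U⌉₊ with hD
  have hD1 : 600 * U ≤ (D : ℝ) := Nat.le_ceil _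
  have hD2 : (D : ℝ) ≤ 600 * U + 1 := (Nat.ceil_lt_add_one (by positivity)).le
  have hD400r : (400 : ℝ) ≤ D := by linarith
  have hD400 : 400 ≤ D := by exact_mod_cast hD400r
  obtain ⟨P, hP, hPz, hPc⟩ := exists_primes2 D hD400
  have hlD : 0 < Real.log D := Real.log_pos (by linarith)
  have hz1 : 1 < Real.sqrt D := by
    apply Real.lt_sqrt_of_sq_lt; linarith
  have hlz : Real.log (Real.sqrt D) = Real.log D / 2 := by
    rw [Real.log_sqrt (by linarith)]
  set M : ℝ := 2 * (H : ℝ) ^ 2 with hM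
  have hlM : Real.log M ≤ 3 * Real.log H := by
    rw [hM, Real.log_mul (by norm_num) (by positivity), Real.log_pow]
    push_cast
    linarith
  have hlM0 : 0 ≤ Real.log M := Real.log_nonneg (by rw [hM]; nlinarith)
  set W : ℕ := ⌊Real.log M / Real.log (Real.sqrt D)⌋₊ with hW
  have hquot0 : 0 ≤ Real.log M / Real.log (Real.sqrt D) := by
    rw [hlz]; positivity
  have hWle : (W : ℝ) ≤ 6 * Real.log H / Real.log D := by
    calc (W : ℝ) ≤ Real.log M / Real.log (Real.sqrt D) := Nat.floor_le hquot0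
      _ = 2 * Real.log M / Real.log D := by rw [hlz]; field_simp
      _ ≤ 6 * Real.log H / Real.log D := by
          apply div_le_div_of_nonneg_right _ hlD.le
          linarith
  have hPge : 150 * U / Real.log D ≤ (P.card : ℝ) := by
    calc 150 * U / Real.log D = (600 * U) / (4 * Real.log D) := by field_simp; ring
      _ ≤ (D : ℝ) / (4 * Real.log D) := by
          apply div_le_div_of_nonneg_right hD1 (by positivity)
      _ ≤ _ := hPc
  have h2Wr : 2 * (W : ℝ) ≤ (P.card : ℝ) := by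
    calc 2 * (W : ℝ) ≤ 2 * (6 * Real.log H / Real.log D) := by linarith
      _ = 12 * Real.log H / Real.log D := by ring
      _ ≤ 150 * U / Real.log D := by
          apply div_le_div_of_nonneg_right _ hlD.le
          linarith
      _ ≤ _ := hPge
  have hWRr : (W : ℝ) * R ≤ (P.card : ℝ) := by
    calc (W : ℝ) * R ≤ (6 * Real.log H / Real.log D) * R :=
          mul_le_mul_of_nonneg_right hWle (by linarith)
      _ = 6 * U / Real.log D := by rw [hU]; ring
      _ ≤ 150 * U / Real.log D := by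
          apply div_le_div_of_nonneg_right _ hlD.le
          linarith
      _ ≤ _ := hPge
  have hPpos : 0 < P.card := by
    have h1 : 0 < 150 * U / Real.log D := by positivity
    have : (0 : ℝ) < P.card := lt_of_lt_of_le h1 hPge
    exact_mod_cast this
  have hsieve := energy_sieve2 A (H ^ 2) D W P
    (by
      intro a ha
      obtain ⟨x, _, rfl⟩ := hA a ha
      exact ⟨x, by ring⟩)
    (by
      intro a ha
      obtain ⟨x, hx, rfl⟩ := hA a ha
      push_cast
      rw [← sq_abs]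
      exact pow_le_pow_left₀ (abs_nonneg _) hx 2)
    hP hPpos
    (by
      intro h h0 hh
      apply Nat.le_floor
      apply card_prime_dvd_gt P (fun q hq => (hP q hq).1) (Real.sqrt D) hz1 hPz h h0 M
      have h1 : ((|h| : ℤ) : ℝ) ≤ ((2 * ((H ^ 2 : ℕ) : ℤ) : ℤ) : ℝ) := by exact_mod_cast hh
      rw [hM]
      push_cast at h1
      push_cast
      exact h1)
    (by exact_mod_cast h2Wr)
    (by
      have h2 : ((W : ℝ) * R) ^ 2 ≤ (P.card : ℝ) ^ 2 := pow_le_pow_left₀ (by positivity) hWRr 2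
      rw [mul_pow, hR2, hn] at h2
      exact_mod_cast h2)
  rw [← hn] at hsieve
  rw [hcase]
  calc (en A : ℝ) ≤ (1 + 8 * (D : ℝ)) * n ^ 2 := hsieve
    _ ≤ (5000 * U) * n ^ 2 := by
        apply mul_le_mul_of_nonneg_right _ (by positivity)
        linarith
    _ = _ := by rw [hU]; ring

/-- Energy bound for rational squares with a common denominator, without `log n`. -/
theorem rat_bound2 (d H : ℕ) (A : Finset ℚ) (hd : 0 < d) (hH : 2 ≤ H)
    (hA : ∀ a ∈ A, ∃ x : ℤ, |x| ≤ (H : ℤ) ∧ a = ((x : ℚ) / (d : ℚ)) ^ 2) :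
    (enQ A : ℝ) ≤ 5000 * (A.card : ℝ) ^ ((5 : ℝ) / 2) * Real.log H := by
  have hd0 : ((d : ℚ) ^ 2) ≠ 0 := by positivity
  set A' : Finset ℤ := A.image (fun a => (a * (d : ℚ) ^ 2).num) with hA'
  have key : ∀ a ∈ A, ∃ x : ℤ, |x| ≤ (H : ℤ) ∧ (a * (d : ℚ) ^ 2).num = x ^ 2 ∧
      a = ((a * (d : ℚ) ^ 2).num : ℚ) / (d : ℚ) ^ 2 := by
    intro a ha
    obtain ⟨x, hx, e⟩ := hA a ha
    have e1 : a * (d : ℚ) ^ 2 = ((x ^ 2 : ℤ) : ℚ) := by
      rw [e]; push_cast; field_simp
    have e2 : (a * (d : ℚ) ^ 2).num = x ^ 2 := by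
      rw [e1]; exact Rat.num_intCast _
    refine ⟨x, hx, e2, ?_⟩
    rw [e2, ← e1]
    field_simp
  have h1 : ∀ a ∈ A, ∃ z ∈ A', a = (z : ℚ) / (d : ℚ) ^ 2 := by
    intro a ha
    obtain ⟨x, _, _, e⟩ := key a ha
    exact ⟨_, Finset.mem_image_of_mem _ ha, e⟩
  have h2 : ∀ z ∈ A', (z : ℚ) / (d : ℚ) ^ 2 ∈ A := by
    intro z hz
    obtain ⟨a, ha, rfl⟩ := Finset.mem_image.mp hz
    obtain ⟨x, _, _, e⟩ := key a ha
    rw [← e]; exact ha
  obtain ⟨e1, e2⟩ := enQ_scale d hd A A' h1 h2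
  have := int_bound2 H A' hH (by
    intro z hz
    obtain ⟨a, ha, rfl⟩ := Finset.mem_image.mp hz
    obtain ⟨x, hx, ex, _⟩ := key a ha
    exact ⟨x, hx, ex⟩)
  rw [e1, e2] at this
  exact this

end H91SQ
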