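import Pool.Agent.H91.SQ.Main2

set_option autoImplicit false

namespace H91SQ

open Finset

lemma enQ_scale3 (c : ℚ) (hc : c ≠ 0) (A : Finset ℚ) (A' : Finset ℤ)
    (h1 : ∀ a ∈ A, ∃ z ∈ A', a = (z : ℚ) * c)
    (h2 : ∀ z ∈ A', (z : ℚ) * c ∈ A) :
    en A' = enQ A ∧ A'.card = A.card := by
  have inj : ∀ z w : ℤ, (z : ℚ) * c = (w : ℚ) * c → z = w := by
    intro z w h
    have := mul_right_cancel₀ hc h
    exact_mod_cast this
  constructor
  · unfold en enQ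
    refine Finset.card_bij (fun x _ => ((x.1 : ℚ) * c, (x.2.1 : ℚ) * c,
      (x.2.2.1 : ℚ) * c, (x.2.2.2 : ℚ) * c)) ?_ ?_ ?_
    · intro x hx
      simp only [Finset.mem_filter, Finset.mem_product] at hx ⊢
      refine ⟨⟨h2 _ hx.1.1, h2 _ hx.1.2.1, h2 _ hx.1.2.2.1, h2 _ hx.1.2.2.2⟩, ?_⟩
      rw [← add_mul, ← add_mul]
      congr 1
      exact_mod_cast hx.2
    · intro x _ y _ hxy
      simp only [Prod.mk.injEq] at hxy
      ext
      · exact inj _ _ hxy.1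
      · exact inj _ _ hxy.2.1
      · exact inj _ _ hxy.2.2.1
      · exact inj _ _ hxy.2.2.2
    · intro y hy
      simp only [Finset.mem_filter, Finset.mem_product] at hy
      obtain ⟨z1, hz1, e1⟩ := h1 _ hy.1.1
      obtain ⟨z2, hz2, e2⟩ := h1 _ hy.1.2.1
      obtain ⟨z3, hz3, e3⟩ := h1 _ hy.1.2.2.1
      obtain ⟨z4, hz4, e4⟩ := h1 _ hy.1.2.2.2
      refine ⟨(z1, z2, z3, z4), ?_, ?_⟩
      · simp only [Finset.mem_filter, Finset.mem_product]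
        refine ⟨⟨hz1, hz2, hz3, hz4⟩, ?_⟩
        have h3 := hy.2
        rw [e1, e2, e3, e4, ← add_mul, ← add_mul] at h3
        have h4 := mul_right_cancel₀ hc h3
        exact_mod_cast h4
      · ext
        · exact e1.symm
        · exact e2.symm
        · exact e3.symm
        · exact e4.symm
  · refine Finset.card_bij (fun z _ => (z : ℚ) * c) h2 (fun z _ w _ h => inj z w h) ?_
    intro a ha
    obtain ⟨z, hz, e⟩ := h1 a ha
    exact ⟨z, hz, e.symm⟩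

/-- Energy bound for squares of rational multiples `r x` of integers `|x| ≤ H`. -/
theorem rat_bound3 (H : ℕ) (r : ℚ) (A : Finset ℚ) (hr : r ≠ 0) (hH : 2 ≤ H)
    (hA : ∀ a ∈ A, ∃ x : ℤ, |x| ≤ (H : ℤ) ∧ a = (r * (x : ℚ)) ^ 2) :
    (enQ A : ℝ) ≤ 5000 * (A.card : ℝ) ^ ((5 : ℝ) / 2) * Real.log H := by
  have hr0 : r ^ 2 ≠ 0 := pow_ne_zero 2 hr
  set A' : Finset ℤ := A.image (fun a => (a / r ^ 2).num) with hA'
  have key : ∀ a ∈ A, ∃ x : ℤ, |x| ≤ (H : ℤ) ∧ (a / r ^ 2).num = x ^ 2 ∧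
      a = ((a / r ^ 2).num : ℚ) * r ^ 2 := by
    intro a ha
    obtain ⟨x, hx, e⟩ := hA a ha
    have e1 : a / r ^ 2 = ((x ^ 2 : ℤ) : ℚ) := by
      rw [e]; push_cast; field_simp
    have e2 : (a / r ^ 2).num = x ^ 2 := by
      rw [e1]; exact Rat.num_intCast _
    refine ⟨x, hx, e2, ?_⟩
    rw [e2, ← e1]
    field_simp
  have h1 : ∀ a ∈ A, ∃ z ∈ A', a = (z : ℚ) * r ^ 2 := by
    intro a ha
    obtain ⟨x, _, _, e⟩ := key a ha
    exact ⟨_, Finset.mem_image_of_mem _ ha, e⟩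
  have h2 : ∀ z ∈ A', (z : ℚ) * r ^ 2 ∈ A := by
    intro z hz
    obtain ⟨a, ha, rfl⟩ := Finset.mem_image.mp hz
    obtain ⟨x, _, _, e⟩ := key a ha
    rw [← e]; exact ha
  obtain ⟨e1, e2⟩ := enQ_scale3 (r ^ 2) hr0 A A' h1 h2
  have := int_bound2 H A' hH (by
    intro z hz
    obtain ⟨a, ha, rfl⟩ := Finset.mem_image.mp hz
    obtain ⟨x, hx, ex, _⟩ := key a ha
    exact ⟨x, hx, ex⟩)
  rw [e1, e2] at this
  exact this

end H91SQ
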