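import Pool.Agent.H91.SQ.EnergyF

set_option autoImplicit false

namespace H91SQ

open Finset Polynomial

/-- The number of points where a nonzero polynomial of degree at most `D` vanishes. -/
lemma card_zero_le (p : ℕ) [Fact p.Prime] {F : Type*} [Field F] [Fintype F] [DecidableEq F]
    [Algebra (ZMod p) F] (h : (ZMod p)[X]) (h0 : h ≠ 0) (D : ℕ) (hD : h.natDegree ≤ D) :
    ((Finset.univ : Finset F).filter (fun x => aeval x h = 0)).card ≤ D := by
  have hinj : Function.Injective (algebraMap (ZMod p) F) := (algebraMap (ZMod p) F).injective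
  have hm : h.map (algebraMap (ZMod p) F) ≠ 0 := (Polynomial.map_ne_zero_iff hinj).mpr h0
  have hsub : ((Finset.univ : Finset F).filter (fun x => aeval x h = 0))
      ⊆ (h.map (algebraMap (ZMod p) F)).roots.toFinset := by
    intro x hx
    rw [Finset.mem_filter] at hx
    rw [Multiset.mem_toFinset, Polynomial.mem_roots hm, Polynomial.IsRoot.def,
      Polynomial.eval_map_algebraMap]
    exact hx.2
  calc _ ≤ _ := Finset.card_le_card hsub
    _ ≤ Multiset.card (h.map (algebraMap (ZMod p) F)).roots := Multiset.toFinset_card_le _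
    _ ≤ (h.map (algebraMap (ZMod p) F)).natDegree := Polynomial.card_roots' _
    _ = h.natDegree := Polynomial.natDegree_map_eq_of_injective hinj h
    _ ≤ D := hD

open Classical in
/-- Energy of squares of polynomials of bounded degree. -/
theorem poly_energy (p : ℕ) [Fact p.Prime] (hp : p ≠ 2) (D : ℕ) (hD : 1 ≤ D)
    (A : Finset (ZMod p)[X]) (hsq : ∀ f ∈ A, IsSquare f) (hdeg : ∀ f ∈ A, f.natDegree ≤ D) :
    (enG A : ℝ) ≤ 17 * p * D * (A.card : ℝ) ^ ((5 : ℝ) / 2) := by
  by_cases hA0 : A.card = 0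
  · have h1 := enG_le_cube A
    rw [hA0] at h1
    have h2 : enG A = 0 := by simpa using h1
    rw [h2]
    push_cast
    positivity
  have hn1 : (1 : ℝ) ≤ A.card := by
    exact_mod_cast Nat.one_le_iff_ne_zero.mpr hA0
  set n : ℝ := (A.card : ℝ) with hn
  set R : ℝ := Real.sqrt n with hR
  have hR2 : R ^ 2 = n := Real.sq_sqrt (by linarith)
  have hR1 : (1 : ℝ) ≤ R := by
    apply Real.le_sqrt_of_sq_le
    linarith
  have hDr : (1 : ℝ) ≤ D := by exact_mod_cast hD
  have hp2 : (2 : ℝ) ≤ p := by exact_mod_cast (Fact.out : p.Prime).two_le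
  have hcase : n ^ ((5 : ℝ) / 2) = n ^ 2 * R := by
    have : (5 : ℝ) / 2 = 2 + 1 / 2 := by norm_num
    rw [this, Real.rpow_add (by linarith), hR, Real.sqrt_eq_rpow]
    congr 1
    exact_mod_cast Real.rpow_natCast n 2
  have hx2 : 2 ≤ 2 * (D : ℝ) * R := by nlinarith
  obtain ⟨m, hm1, hm2⟩ := exists_nat_pow_near (x := 2 * (D : ℝ) * R) (y := (p : ℝ))
    (by linarith) (by linarith)
  have hfin : Finite (GaloisField p (m + 1)) := inferInstance
  letI : Fintype (GaloisField p (m + 1)) := Fintype.ofFinite _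
  have hcard : Fintype.card (GaloisField p (m + 1)) = p ^ (m + 1) := by
    rw [← Nat.card_eq_fintype_card]
    exact GaloisField.card p (m + 1) (Nat.succ_ne_zero m)
  have hchar : ringChar (GaloisField p (m + 1)) ≠ 2 := by
    have : ringChar (GaloisField p (m + 1)) = p := ringChar.eq _ p
    rw [this]; exact hp
  have hPc : (Finset.univ : Finset (GaloisField p (m + 1))).card = p ^ (m + 1) := by
    rw [Finset.card_univ, hcard]
  have hq : 2 * (D : ℝ) * R < ((p ^ (m + 1) : ℕ) : ℝ) := by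
    push_cast; exact hm2
  have hqle : ((p ^ (m + 1) : ℕ) : ℝ) ≤ 2 * p * D * R := by
    push_cast
    calc (p : ℝ) ^ (m + 1) = (p : ℝ) ^ m * p := by ring
      _ ≤ (2 * (D : ℝ) * R) * p := mul_le_mul_of_nonneg_right hm1 (by linarith)
      _ = _ := by ring
  have key := energy_sieveF (G := (ZMod p)[X]) (F := GaloisField p (m + 1))
    (ι := GaloisField p (m + 1)) hchar A Finset.univ (fun x f => aeval x f)
    (fun i x y => map_add _ x y) D
    (by rw [hPc]; exact pow_pos (Fact.out : p.Prime).pos _)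
    (fun a ha i _ => (hsq a ha).map (aeval i))
    (fun a ha h0 => card_zero_le p a h0 D (hdeg a ha))
    (by
      intro a ha b hb hne
      have hd : (a - b).natDegree ≤ D :=
        (natDegree_sub_le a b).trans (max_le (hdeg a ha) (hdeg b hb))
      have h1 := card_zero_le p (F := GaloisField p (m + 1)) (a - b) (sub_ne_zero.mpr hne) D hd
      refine le_trans (Finset.card_le_card ?_) h1
      intro x hx
      rw [Finset.mem_filter] at hx ⊢
      exact ⟨hx.1, by rw [map_sub, hx.2, sub_self]⟩)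
    (by
      intro s hs s' hs' hne
      have hdif : ∀ s ∈ difG A, s.natDegree ≤ D := by
        intro s hs
        obtain ⟨u, hu, rfl⟩ := Finset.mem_image.mp hs
        rw [Finset.mem_product] at hu
        exact (natDegree_sub_le _ _).trans (max_le (hdeg _ hu.1) (hdeg _ hu.2))
      have hd : (s - s').natDegree ≤ D :=
        (natDegree_sub_le _ _).trans (max_le (hdif s hs) (hdif s' hs'))
      have h1 := card_zero_le p (F := GaloisField p (m + 1)) (s - s') (sub_ne_zero.mpr hne) D hd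
      refine le_trans (Finset.card_le_card ?_) h1
      intro x hx
      rw [Finset.mem_filter] at hx ⊢
      exact ⟨hx.1, by rw [map_sub, hx.2, sub_self]⟩)
    (by
      rw [hPc]
      have : (2 * (D : ℝ)) ≤ ((p ^ (m + 1) : ℕ) : ℝ) := by nlinarith
      exact_mod_cast this)
    (by
      rw [hPc]
      have h1 : (D : ℝ) * R ≤ ((p ^ (m + 1) : ℕ) : ℝ) := by nlinarith
      have h2 : ((D : ℝ) * R) ^ 2 ≤ ((p ^ (m + 1) : ℕ) : ℝ) ^ 2 :=
        pow_le_pow_left₀ (by positivity) h1 2
      rw [mul_pow, hR2, hn] at h2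
      exact_mod_cast h2)
    (by rw [hPc, hcard])
  rw [hPc, ← hn] at key
  rw [hcase]
  calc (enG A : ℝ) ≤ (1 + 8 * ((p ^ (m + 1) : ℕ) : ℝ)) * n ^ 2 := key
    _ ≤ (17 * p * D * R) * n ^ 2 := by
        apply mul_le_mul_of_nonneg_right _ (by positivity)
        have : 1 ≤ (p : ℝ) * D * R := by
          have h1 : 1 ≤ (p : ℝ) * D := by nlinarith
          nlinarith
        nlinarith
    _ = _ := by ring

open Classical in
/-- Growth of sumsets of squares of polynomials. -/
theorem poly_sumset (p : ℕ) [Fact p.Prime] (hp : p ≠ 2) (D : ℕ) (hD : 1 ≤ D)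
    (A : Finset (ZMod p)[X]) (hsq : ∀ f ∈ A, IsSquare f) (hdeg : ∀ f ∈ A, f.natDegree ≤ D) :
    (A.card : ℝ) ^ ((3 : ℝ) / 2)
      ≤ 17 * p * D * (((A ×ˢ A).image (fun u : (ZMod p)[X] × (ZMod p)[X] => u.1 + u.2)).card : ℝ) := by
  by_cases hA0 : A.card = 0
  · rw [hA0]
    have : ((0 : ℕ) : ℝ) ^ ((3 : ℝ) / 2) = 0 := by
      rw [Nat.cast_zero, Real.zero_rpow (by norm_num)]
    rw [this]
    positivity
  have hn1 : (1 : ℝ) ≤ A.card := by
    exact_mod_cast Nat.one_le_iff_ne_zero.mpr hA0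
  have hE := poly_energy p hp D hD A hsq hdeg
  have hS := sumset_energyG A
  set n : ℝ := (A.card : ℝ) with hn
  set s : ℝ := (((A ×ˢ A).image
    (fun u : (ZMod p)[X] × (ZMod p)[X] => u.1 + u.2)).card : ℝ) with hs
  have hS' : n ^ 4 ≤ s * (enG A : ℝ) := by rw [hn, hs]; exact_mod_cast hS
  have hn0 : 0 < n := by linarith
  have hs0 : 0 ≤ s := Nat.cast_nonneg _
  have h1 : n ^ 4 ≤ s * (17 * p * D * n ^ ((5 : ℝ) / 2)) :=
    hS'.trans (mul_le_mul_of_nonneg_left hE hs0)
  have h2 : n ^ 4 = n ^ ((3 : ℝ) / 2) * n ^ ((5 : ℝ) / 2) := by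
    rw [← Real.rpow_add hn0]
    have : (3 : ℝ) / 2 + 5 / 2 = ((4 : ℕ) : ℝ) := by norm_num
    rw [this, Real.rpow_natCast]
  rw [h2] at h1
  have h3 : 0 < n ^ ((5 : ℝ) / 2) := Real.rpow_pos_of_pos hn0 _
  have h4 : n ^ ((3 : ℝ) / 2) * n ^ ((5 : ℝ) / 2) ≤ (17 * p * D * s) * n ^ ((5 : ℝ) / 2) := by
    calc _ ≤ _ := h1
      _ = _ := by ring
  exact le_of_mul_le_mul_right h4 h3

end H91SQ
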