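import Pool.Agent.H91.SQ.Char

set_option autoImplicit false

namespace H91SQ

open Finset

/-- Quadratic character of an integer modulo `q`, real valued. -/
noncomputable def chiZ (q : ℕ) (a : ℤ) : ℝ := (jacobiSym a q : ℝ)

lemma chiZ_eq (q : ℕ) [Fact q.Prime] (a : ℤ) : chiZ q a = chi q (a : ZMod q) := by
  unfold chiZ chi
  rw [← jacobiSym.legendreSym.to_jacobiSym]
  rfl

lemma chiZ_square (q : ℕ) (hq : q.Prime) (a : ℤ) (ha : IsSquare a) :
    chiZ q a = if (q : ℤ) ∣ a then 0 else 1 := by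
  have : Fact q.Prime := ⟨hq⟩
  unfold chiZ
  obtain ⟨m, rfl⟩ := ha
  split_ifs with h
  · rw [← jacobiSym.legendreSym.to_jacobiSym, (legendreSym.eq_zero_iff q (m * m)).mpr]
    · simp
    · rw [ZMod.intCast_zmod_eq_zero_iff_dvd]; exact h
  · have hm : ¬ (q : ℤ) ∣ m := fun h' => h (Dvd.dvd.mul_right h' m)
    have : (m : ZMod q) ≠ 0 := by
      intro h0
      rw [ZMod.intCast_zmod_eq_zero_iff_dvd] at h0
      exact hm h0
    have h2 := legendreSym.sq_one' q this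
    rw [pow_two] at h2
    rw [← jacobiSym.legendreSym.to_jacobiSym, h2]
    simp

/-- Push forward of the weight `g` on `S` to residues modulo `q` and `q'`. -/
noncomputable def pushW (q q' : ℕ) (S : Finset ℤ) (g : ℤ → ℝ) (y : ZMod q) (y' : ZMod q') : ℝ :=
  ∑ s ∈ S, if (s : ZMod q) = y ∧ (s : ZMod q') = y' then g s else 0

lemma push_sum (q q' : ℕ) [Fact q.Prime] [Fact q'.Prime] (S : Finset ℤ) (g : ℤ → ℝ)
    (h : ZMod q → ZMod q' → ℝ) :
    ∑ y : ZMod q, ∑ y' : ZMod q', h y y' * pushW q q' S g y y'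
      = ∑ s ∈ S, h (s : ZMod q) (s : ZMod q') * g s := by
  unfold pushW
  have e1 : ∀ (y : ZMod q) (y' : ZMod q'),
      h y y' * (∑ s ∈ S, if (s : ZMod q) = y ∧ (s : ZMod q') = y' then g s else 0)
      = ∑ s ∈ S, if (s : ZMod q) = y then (if (s : ZMod q') = y' then h y y' * g s else 0)
          else 0 := by
    intro y y'
    rw [Finset.mul_sum]
    refine Finset.sum_congr rfl (fun s _ => ?_)
    by_cases h1 : (s : ZMod q) = y
    · by_cases h2 : (s : ZMod q') = y'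
      · simp [h1, h2]
      · simp [h1, h2]
    · simp [h1]
  rw [Finset.sum_congr rfl (fun y _ => Finset.sum_congr rfl (fun y' _ => e1 y y'))]
  have e2 : ∀ y : ZMod q, ∑ y' : ZMod q', ∑ s ∈ S,
      (if (s : ZMod q) = y then (if (s : ZMod q') = y' then h y y' * g s else 0) else 0)
      = ∑ s ∈ S, if (s : ZMod q) = y then h y (s : ZMod q') * g s else 0 := by
    intro y
    rw [Finset.sum_comm]
    refine Finset.sum_congr rfl (fun s _ => ?_)
    by_cases h1 : (s : ZMod q) = y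
    · simp [h1]
    · simp [h1]
  rw [Finset.sum_congr rfl (fun y _ => e2 y), Finset.sum_comm]
  refine Finset.sum_congr rfl (fun s _ => ?_)
  simp

/-- The weighted number of pairs of `S` which agree modulo `q` and modulo `q'`. -/
noncomputable def coll (q q' : ℕ) (S : Finset ℤ) (g : ℤ → ℝ) : ℝ :=
  ∑ s ∈ S, ∑ s' ∈ S, if (q : ℤ) ∣ s - s' ∧ (q' : ℤ) ∣ s - s' then g s * g s' else 0

lemma push_sq (q q' : ℕ) [Fact q.Prime] [Fact q'.Prime] (S : Finset ℤ) (g : ℤ → ℝ) :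
    ∑ y : ZMod q, ∑ y' : ZMod q', pushW q q' S g y y' ^ 2 = coll q q' S g := by
  have e1 : ∑ y : ZMod q, ∑ y' : ZMod q', pushW q q' S g y y' ^ 2
      = ∑ y : ZMod q, ∑ y' : ZMod q', pushW q q' S g y y' * pushW q q' S g y y' := by
    refine Finset.sum_congr rfl (fun y _ => Finset.sum_congr rfl (fun y' _ => ?_))
    rw [pow_two]
  rw [e1, push_sum q q' S g (fun y y' => pushW q q' S g y y')]
  unfold pushW coll
  refine Finset.sum_congr rfl (fun s _ => ?_)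
  rw [Finset.sum_mul]
  refine Finset.sum_congr rfl (fun s' _ => ?_)
  have h1 : ((s' : ZMod q) = (s : ZMod q)) ↔ (q : ℤ) ∣ s - s' :=
    ZMod.intCast_eq_intCast_iff_dvd_sub s' s q
  have h2 : ((s' : ZMod q') = (s : ZMod q')) ↔ (q' : ℤ) ∣ s - s' :=
    ZMod.intCast_eq_intCast_iff_dvd_sub s' s q'
  by_cases hc : (q : ℤ) ∣ s - s' ∧ (q' : ℤ) ∣ s - s'
  · rw [if_pos hc, if_pos ⟨h1.mpr hc.1, h2.mpr hc.2⟩]; ring
  · rw [if_neg hc, if_neg (fun h => hc ⟨h1.mp h.1, h2.mp h.2⟩)]; ring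

lemma coll_nonneg (q q' : ℕ) [Fact q.Prime] [Fact q'.Prime] (S : Finset ℤ) (g : ℤ → ℝ) :
    0 ≤ coll q q' S g := by
  rw [← push_sq q q' S g]
  exact Finset.sum_nonneg (fun y _ => Finset.sum_nonneg (fun y' _ => sq_nonneg _))

/-- The bilinear form attached to the primes `q`, `q'`. -/
noncomputable def bil (q q' : ℕ) (B S : Finset ℤ) (f g : ℤ → ℝ) : ℝ :=
  ∑ b ∈ B, ∑ s ∈ S, f b * g s * (chiZ q (b + s) * chiZ q' (b + s))

lemma pair_bound (q q' : ℕ) (pq : q.Prime) (pq' : q'.Prime) (hq : q ≠ 2) (hq' : q' ≠ 2)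
    (B S : Finset ℤ) (f g : ℤ → ℝ) :
    bil q q' B S f g ^ 2 ≤ (q : ℝ) * (q' : ℝ) * (coll q q' B f * coll q q' S g) := by
  have : Fact q.Prime := ⟨pq⟩
  have : Fact q'.Prime := ⟨pq'⟩
  set Φ : ZMod q → ZMod q' → ℝ := fun x x' => ∑ y : ZMod q, ∑ y' : ZMod q',
      chi q (x + y) * chi q' (x' + y') * pushW q q' S g y y' with hΦ
  have e1 : bil q q' B S f g
      = ∑ x : ZMod q, ∑ x' : ZMod q', Φ x x' * pushW q q' B f x x' := by
    rw [push_sum q q' B f Φ]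
    unfold bil
    refine Finset.sum_congr rfl (fun b _ => ?_)
    rw [hΦ]
    simp only
    rw [push_sum q q' S g (fun y y' => chi q ((b : ZMod q) + y) * chi q' ((b : ZMod q') + y')),
      Finset.sum_mul]
    refine Finset.sum_congr rfl (fun s _ => ?_)
    rw [chiZ_eq, chiZ_eq]
    push_cast
    ring
  have e2 : (∑ x : ZMod q, ∑ x' : ZMod q', Φ x x' * pushW q q' B f x x') ^ 2
      ≤ (∑ x : ZMod q, ∑ x' : ZMod q', Φ x x' ^ 2) *
        (∑ x : ZMod q, ∑ x' : ZMod q', pushW q q' B f x x' ^ 2) := by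
    have := Finset.sum_mul_sq_le_sq_mul_sq (Finset.univ : Finset (ZMod q × ZMod q'))
      (fun p => Φ p.1 p.2) (fun p => pushW q q' B f p.1 p.2)
    simpa only [Fintype.sum_prod_type] using this
  have e3 := op_two q q' hq hq' (pushW q q' S g)
  rw [push_sq] at e2 e3
  rw [e1]
  calc _ ≤ _ := e2
    _ ≤ ((q : ℝ) * (q' : ℝ) * coll q q' S g) * coll q q' B f :=
        mul_le_mul_of_nonneg_right e3 (coll_nonneg q q' B f)
    _ = _ := by ring

/-- Counting pairs of primes dividing differences. -/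
lemma coll_sum (P : Finset ℕ) (W : ℕ) (B : Finset ℤ) (f : ℤ → ℝ)
    (hf : ∀ b ∈ B, 0 ≤ f b)
    (hB : ∀ b ∈ B, ∀ b' ∈ B, b ≠ b' → (P.filter (fun q : ℕ => (q : ℤ) ∣ b - b')).card ≤ W) :
    ∑ p ∈ P ×ˢ P, coll p.1 p.2 B f
      ≤ (P.card : ℝ) ^ 2 * (∑ b ∈ B, f b ^ 2) + (W : ℝ) ^ 2 * (∑ b ∈ B, f b) ^ 2 := by
  have h1 : ∑ p ∈ P ×ˢ P, coll p.1 p.2 B f
      = ∑ b ∈ B, ∑ b' ∈ B, (f b * f b') *
          ((P.filter (fun q : ℕ => (q : ℤ) ∣ b - b')).card : ℝ) ^ 2 := by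
    unfold coll
    rw [Finset.sum_comm]
    refine Finset.sum_congr rfl (fun b _ => ?_)
    rw [Finset.sum_comm]
    refine Finset.sum_congr rfl (fun b' _ => ?_)
    rw [← Finset.sum_filter, Finset.sum_const, nsmul_eq_mul]
    have : ((P ×ˢ P).filter (fun p : ℕ × ℕ => (p.1 : ℤ) ∣ b - b' ∧ (p.2 : ℤ) ∣ b - b'))
        = (P.filter (fun q : ℕ => (q : ℤ) ∣ b - b')) ×ˢ (P.filter (fun q : ℕ => (q : ℤ) ∣ b - b')) := by
      ext p
      simp only [Finset.mem_filter, Finset.mem_product]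
      tauto
    rw [this, Finset.card_product]
    push_cast
    ring
  rw [h1]
  have h2 : ∀ b ∈ B, ∀ b' ∈ B, (f b * f b') *
          ((P.filter (fun q : ℕ => (q : ℤ) ∣ b - b')).card : ℝ) ^ 2
        ≤ (if b = b' then (P.card : ℝ) ^ 2 * (f b * f b') else 0)
          + (W : ℝ) ^ 2 * (f b * f b') := by
    intro b hb b' hb'
    have hff : 0 ≤ f b * f b' := mul_nonneg (hf b hb) (hf b' hb')
    split_ifs with h
    · have hc : ((P.filter (fun q : ℕ => (q : ℤ) ∣ b - b')).card : ℝ) ^ 2 ≤ (P.card : ℝ) ^ 2 := by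
        have : ((P.filter (fun q : ℕ => (q : ℤ) ∣ b - b')).card : ℝ) ≤ (P.card : ℝ) := by
          exact_mod_cast Finset.card_filter_le _ _
        exact pow_le_pow_left₀ (Nat.cast_nonneg _) this 2
      have := mul_le_mul_of_nonneg_left hc hff
      have h0 : 0 ≤ (W : ℝ) ^ 2 * (f b * f b') := mul_nonneg (sq_nonneg _) hff
      linarith
    · have hc : ((P.filter (fun q : ℕ => (q : ℤ) ∣ b - b')).card : ℝ) ^ 2 ≤ (W : ℝ) ^ 2 := by
        have : ((P.filter (fun q : ℕ => (q : ℤ) ∣ b - b')).card : ℝ) ≤ (W : ℝ) := by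
          exact_mod_cast hB b hb b' hb' h
        exact pow_le_pow_left₀ (Nat.cast_nonneg _) this 2
      have := mul_le_mul_of_nonneg_left hc hff
      linarith
  calc _ ≤ ∑ b ∈ B, ∑ b' ∈ B, ((if b = b' then (P.card : ℝ) ^ 2 * (f b * f b') else 0)
          + (W : ℝ) ^ 2 * (f b * f b')) :=
        Finset.sum_le_sum (fun b hb => Finset.sum_le_sum (fun b' hb' => h2 b hb b' hb'))
    _ = _ := by
        have e1 : ∀ b ∈ B, ∑ b' ∈ B, ((if b = b' then (P.card : ℝ) ^ 2 * (f b * f b') else 0)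
          + (W : ℝ) ^ 2 * (f b * f b'))
            = (P.card : ℝ) ^ 2 * f b ^ 2 + (W : ℝ) ^ 2 * (f b * ∑ b' ∈ B, f b') := by
          intro b hb
          rw [Finset.sum_add_distrib, Finset.sum_ite_eq, if_pos hb, ← Finset.mul_sum,
            ← Finset.mul_sum]
          ring
        rw [Finset.sum_congr rfl e1, Finset.sum_add_distrib, ← Finset.mul_sum, ← Finset.mul_sum,
          ← Finset.sum_mul]
        ring

/-- The square sum sieve. -/
theorem sieve (P : Finset ℕ) (D W : ℕ) (hP : ∀ q ∈ P, q.Prime ∧ q ≠ 2 ∧ q ≤ D)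
    (hWP : W ≤ P.card) (B S : Finset ℤ) (f g : ℤ → ℝ)
    (hf : ∀ b ∈ B, 0 ≤ f b) (hg : ∀ s ∈ S, 0 ≤ g s)
    (hB : ∀ b ∈ B, ∀ b' ∈ B, b ≠ b' → (P.filter (fun q : ℕ => (q : ℤ) ∣ b - b')).card ≤ W)
    (hS : ∀ s ∈ S, ∀ s' ∈ S, s ≠ s' → (P.filter (fun q : ℕ => (q : ℤ) ∣ s - s')).card ≤ W)
    (Good : ℤ → ℤ → Prop) [∀ b s, Decidable (Good b s)]
    (hG : ∀ b ∈ B, ∀ s ∈ S, Good b s →
      IsSquare (b + s) ∧ (P.filter (fun q : ℕ => (q : ℤ) ∣ b + s)).card ≤ W) :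
    ((P.card : ℝ) - W) ^ 2 * (∑ b ∈ B, ∑ s ∈ S, if Good b s then f b * g s else 0)
      ≤ (D : ℝ) *
        (Real.sqrt ((P.card : ℝ) ^ 2 * (∑ b ∈ B, f b ^ 2) + (W : ℝ) ^ 2 * (∑ b ∈ B, f b) ^ 2) *
        Real.sqrt ((P.card : ℝ) ^ 2 * (∑ s ∈ S, g s ^ 2) + (W : ℝ) ^ 2 * (∑ s ∈ S, g s) ^ 2)) := by
  have hWP' : (W : ℝ) ≤ (P.card : ℝ) := by exact_mod_cast hWP
  -- step one: pointwise lower bound
  have h1 : ∀ b ∈ B, ∀ s ∈ S, ((P.card : ℝ) - W) ^ 2 * (if Good b s then f b * g s else 0)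
      ≤ (f b * g s) * (∑ q ∈ P, chiZ q (b + s)) ^ 2 := by
    intro b hb s hs
    have hfg : 0 ≤ f b * g s := mul_nonneg (hf b hb) (hg s hs)
    split_ifs with h
    · obtain ⟨hsq, hc⟩ := hG b hb s hs h
      have e : ∑ q ∈ P, chiZ q (b + s)
          = (P.card : ℝ) - ((P.filter (fun q : ℕ => (q : ℤ) ∣ b + s)).card : ℝ) := by
        have e1 : ∀ q ∈ P, chiZ q (b + s) = 1 - (if (q : ℤ) ∣ b + s then 1 else 0) := by
          intro q hq
          rw [chiZ_square q (hP q hq).1 _ hsq]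
          split_ifs <;> ring
        rw [Finset.sum_congr rfl e1, Finset.sum_sub_distrib]
        simp
      have hc' : ((P.filter (fun q : ℕ => (q : ℤ) ∣ b + s)).card : ℝ) ≤ W := by exact_mod_cast hc
      have h2 : ((P.card : ℝ) - W) ^ 2 ≤ (∑ q ∈ P, chiZ q (b + s)) ^ 2 := by
        rw [e]
        exact pow_le_pow_left₀ (by linarith) (by linarith) 2
      calc ((P.card : ℝ) - W) ^ 2 * (f b * g s) = (f b * g s) * ((P.card : ℝ) - W) ^ 2 := by ring
        _ ≤ _ := mul_le_mul_of_nonneg_left h2 hfg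
    · rw [mul_zero]
      exact mul_nonneg hfg (sq_nonneg _)
  -- step two: expansion
  have h2 : ∑ b ∈ B, ∑ s ∈ S, (f b * g s) * (∑ q ∈ P, chiZ q (b + s)) ^ 2
      = ∑ p ∈ P ×ˢ P, bil p.1 p.2 B S f g := by
    unfold bil
    rw [Finset.sum_comm (s := P ×ˢ P)]
    refine Finset.sum_congr rfl (fun b _ => ?_)
    rw [Finset.sum_comm (s := P ×ˢ P)]
    refine Finset.sum_congr rfl (fun s _ => ?_)
    rw [pow_two, Finset.sum_mul_sum, ← Finset.sum_product', Finset.mul_sum]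
  -- step three: bound for each pair
  have h3 : ∀ p ∈ P ×ˢ P, bil p.1 p.2 B S f g
      ≤ (D : ℝ) * (Real.sqrt (coll p.1 p.2 B f) * Real.sqrt (coll p.1 p.2 S g)) := by
    intro p hp
    rw [Finset.mem_product] at hp
    obtain ⟨pp, p2, pD⟩ := hP p.1 hp.1
    obtain ⟨pp', p2', pD'⟩ := hP p.2 hp.2
    have : Fact p.1.Prime := ⟨pp⟩
    have : Fact p.2.Prime := ⟨pp'⟩
    have hb := pair_bound p.1 p.2 pp pp' p2 p2' B S f g
    have c1 := coll_nonneg p.1 p.2 B f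
    have c2 := coll_nonneg p.1 p.2 S g
    have hDD : (p.1 : ℝ) * (p.2 : ℝ) ≤ (D : ℝ) * (D : ℝ) := by
      have a1 : (p.1 : ℝ) ≤ D := by exact_mod_cast pD
      have a2 : (p.2 : ℝ) ≤ D := by exact_mod_cast pD'
      exact mul_le_mul a1 a2 (Nat.cast_nonneg _) (Nat.cast_nonneg _)
    have hb2 : bil p.1 p.2 B S f g ^ 2
        ≤ ((D : ℝ) * (Real.sqrt (coll p.1 p.2 B f) * Real.sqrt (coll p.1 p.2 S g))) ^ 2 := by
      calc _ ≤ _ := hb
        _ ≤ (D : ℝ) * (D : ℝ) * (coll p.1 p.2 B f * coll p.1 p.2 S g) :=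
            mul_le_mul_of_nonneg_right hDD (mul_nonneg c1 c2)
        _ = _ := by
            rw [mul_pow, mul_pow, Real.sq_sqrt c1, Real.sq_sqrt c2]; ring
    exact le_of_sq_le_sq hb2 (by positivity)
  -- step four: Cauchy
  have h4 : ∑ p ∈ P ×ˢ P, Real.sqrt (coll p.1 p.2 B f) * Real.sqrt (coll p.1 p.2 S g)
      ≤ Real.sqrt (∑ p ∈ P ×ˢ P, coll p.1 p.2 B f) *
        Real.sqrt (∑ p ∈ P ×ˢ P, coll p.1 p.2 S g) := by
    have hcB : ∀ p ∈ P ×ˢ P, 0 ≤ coll p.1 p.2 B f := by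
      intro p hp
      rw [Finset.mem_product] at hp
      have : Fact p.1.Prime := ⟨(hP p.1 hp.1).1⟩
      have : Fact p.2.Prime := ⟨(hP p.2 hp.2).1⟩
      exact coll_nonneg p.1 p.2 B f
    have hcS : ∀ p ∈ P ×ˢ P, 0 ≤ coll p.1 p.2 S g := by
      intro p hp
      rw [Finset.mem_product] at hp
      have : Fact p.1.Prime := ⟨(hP p.1 hp.1).1⟩
      have : Fact p.2.Prime := ⟨(hP p.2 hp.2).1⟩
      exact coll_nonneg p.1 p.2 S g
    rw [← Real.sqrt_mul (Finset.sum_nonneg hcB)]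
    apply Real.le_sqrt_of_sq_le
    have := Finset.sum_mul_sq_le_sq_mul_sq (P ×ˢ P)
      (fun p => Real.sqrt (coll p.1 p.2 B f)) (fun p => Real.sqrt (coll p.1 p.2 S g))
    refine this.trans (le_of_eq ?_)
    congr 1
    · exact Finset.sum_congr rfl (fun p hp => Real.sq_sqrt (hcB p hp))
    · exact Finset.sum_congr rfl (fun p hp => Real.sq_sqrt (hcS p hp))
  have h5 := coll_sum P W B f hf hB
  have h6 := coll_sum P W S g hg hS
  calc ((P.card : ℝ) - W) ^ 2 * (∑ b ∈ B, ∑ s ∈ S, if Good b s then f b * g s else 0)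
      = ∑ b ∈ B, ∑ s ∈ S, ((P.card : ℝ) - W) ^ 2 * (if Good b s then f b * g s else 0) := by
        rw [Finset.mul_sum]
        refine Finset.sum_congr rfl (fun b _ => ?_)
        rw [Finset.mul_sum]
    _ ≤ ∑ b ∈ B, ∑ s ∈ S, (f b * g s) * (∑ q ∈ P, chiZ q (b + s)) ^ 2 :=
        Finset.sum_le_sum (fun b hb => Finset.sum_le_sum (fun s hs => h1 b hb s hs))
    _ = ∑ p ∈ P ×ˢ P, bil p.1 p.2 B S f g := h2
    _ ≤ ∑ p ∈ P ×ˢ P, (D : ℝ) *
          (Real.sqrt (coll p.1 p.2 B f) * Real.sqrt (coll p.1 p.2 S g)) :=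
        Finset.sum_le_sum h3
    _ = (D : ℝ) * ∑ p ∈ P ×ˢ P,
          (Real.sqrt (coll p.1 p.2 B f) * Real.sqrt (coll p.1 p.2 S g)) := by
        rw [Finset.mul_sum]
    _ ≤ (D : ℝ) * (Real.sqrt (∑ p ∈ P ×ˢ P, coll p.1 p.2 B f) *
        Real.sqrt (∑ p ∈ P ×ˢ P, coll p.1 p.2 S g)) :=
        mul_le_mul_of_nonneg_left h4 (Nat.cast_nonneg _)
    _ ≤ _ := by
        refine mul_le_mul_of_nonneg_left ?_ (Nat.cast_nonneg _)
        exact mul_le_mul (Real.sqrt_le_sqrt h5) (Real.sqrt_le_sqrt h6) (Real.sqrt_nonneg _)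
          (Real.sqrt_nonneg _)

end H91SQ
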